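import Pool.Agent.BookIm.Defs
import Pool.Agent.Book19.Core2
import Pool.Agent.Book19.DVal

/-!
# Counting
-/

set_option autoImplicit false

namespace Pool.Agent.BookIm

open Pool.Agent.PT Pool.Agent.Book19 Relation

private theorem count_vl_inj {x y : List Bool} (hl : x.length = y.length) (h : vl x = vl y) :
    x = y := by
  have h1 := val_inj (by rw [List.length_map, List.length_map, hl]) h
  have hinj : Function.Injective (fun b : Bool => if b = true then (1 : Fin 2) else 0) := by
    intro a b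
    cases a <;> cases b <;> simp
  exact hinj.list_map h1

private theorem count_sum (K : ℕ) : (∑ i ∈ Finset.range K, 2 ^ i) + 1 = 2 ^ K := by
  induction K with
  | zero => simp
  | succ K ih => rw [Finset.sum_range_succ, pow_succ]; omega

/-- `Rset` meets every length from `2` on. -/
theorem exists_mem_Rset (n : ℕ) (hn : 2 ≤ n) : ∃ x ∈ Rset, x.length = n := by
  classical
  by_contra hcon
  have hall : ∀ x : List Bool, x.length = n → ∃ τ : List Th, ∃ h : List Bool,
      τ.length = cl n ∧ h.length ≤ n - Nat.log 2 n ∧ FirstW x τ h := by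
    intro x hx
    by_contra hno
    refine hcon ⟨x, ?_, hx⟩
    intro τ h h1 h2 h3
    rw [hx] at h1 h2
    exact hno ⟨τ, h, h1, h2, h3⟩
  choose τ hh h1 h2 h3 using hall
  set l := Nat.log 2 n with hl
  set K := n - l + 1 with hK
  let F : List.Vector Bool n → List.Vector Th (cl n) × (Σ i : Fin K, List.Vector Bool (i : ℕ)) :=
    fun x => (⟨τ x.1 x.2, h1 x.1 x.2⟩,
      ⟨⟨(hh x.1 x.2).length, Nat.lt_succ_of_le (h2 x.1 x.2)⟩, ⟨hh x.1 x.2, rfl⟩⟩)
  have hF : Function.Injective F := by
    intro x y hxy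
    have e1 : τ x.1 x.2 = τ y.1 y.2 := congrArg (fun z => z.1.toList) hxy
    have e2 : hh x.1 x.2 = hh y.1 y.2 := congrArg (fun z => z.2.2.toList) hxy
    have a := h3 x.1 x.2
    have b := h3 y.1 y.2
    rw [← e1, ← e2] at b
    have hlen : x.1.length = y.1.length := x.2.trans y.2.symm
    have c1 : vl x.1 ≤ vl y.1 := a.2 y.1 hlen.symm b.1
    have c2 : vl y.1 ≤ vl x.1 := b.2 x.1 hlen a.1
    exact Subtype.ext (count_vl_inj hlen (le_antisymm c1 c2))
  have hcard := Fintype.card_le_of_injective F hF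
  rw [card_vector, Fintype.card_prod, card_vector, Fintype.card_sigma, Fintype.card_bool] at hcard
  simp only [card_vector, Fintype.card_bool] at hcard
  rw [Fin.sum_univ_eq_sum_range (fun i => 2 ^ i) K] at hcard
  have hs := count_sum K
  have hl1 : 1 ≤ l := by
    rw [hl]
    exact Nat.log_pos (by norm_num) hn
  have hln : l ≤ n := Nat.log_le_self 2 n
  have ht : Fintype.card Th * cl n + 1 ≤ l := by
    have e1 : cl n * (Fintype.card Th + 1) ≤ l := Nat.div_mul_le_self _ _
    rcases Nat.eq_zero_or_pos (cl n) with h0 | h0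
    · rw [h0]; omega
    · nlinarith
  have hp : Fintype.card Th ^ cl n ≤ 2 ^ (Fintype.card Th * cl n) := by
    rw [pow_mul]
    exact Nat.pow_le_pow_left (Nat.lt_two_pow_self).le _
  have hS : (∑ i ∈ Finset.range K, 2 ^ i) < 2 ^ K := by omega
  have hfin : Fintype.card Th ^ cl n * (∑ i ∈ Finset.range K, 2 ^ i) < 2 ^ n := by
    calc Fintype.card Th ^ cl n * (∑ i ∈ Finset.range K, 2 ^ i)
        ≤ 2 ^ (Fintype.card Th * cl n) * (∑ i ∈ Finset.range K, 2 ^ i) :=
          Nat.mul_le_mul_right _ hp
      _ < 2 ^ (Fintype.card Th * cl n) * 2 ^ K :=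
          Nat.mul_lt_mul_of_pos_left hS (by positivity)
      _ = 2 ^ (Fintype.card Th * cl n + K) := (pow_add 2 _ _).symm
      _ ≤ 2 ^ n := Nat.pow_le_pow_right (by norm_num) (by omega)
  omega

end Pool.Agent.BookIm
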