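import Pool.Agent.Book19.Letter

/-!
# Substituting a word in a term
-/

set_option autoImplicit false

namespace Pool.Agent.BookIm

open Pool.Agent.PT Pool.Agent.Book19

private theorem wsub_get {A : Type} (n : ℕ) (l : ℕ → A) (i : ℕ) (a : A) :
    ((List.range n).map l)[i]? = some a ↔ i < n ∧ l i = a := by
  rw [List.getElem?_map, Option.map_eq_some_iff]
  constructor
  · rintro ⟨j, h1, h2⟩
    rw [List.getElem?_eq_some_iff] at h1
    obtain ⟨h3, h4⟩ := h1
    rw [List.length_range] at h3
    rw [List.getElem_range] at h4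
    subst h4
    exact ⟨h3, h2⟩
  · rintro ⟨h1, h2⟩
    refine ⟨i, ?_, h2⟩
    rw [List.getElem?_eq_some_iff]
    exact ⟨by rwa [List.length_range], by rw [List.getElem_range]⟩

/-- the renaming which inserts a variable after the first one -/
private def wsubRen : ℕ → ℕ
  | 0 => 0
  | j + 1 => j + 2

private theorem wsub_tm {A B : Type} : ∀ (t : Tm A) (N : List B → (ℕ → ℕ) → ℕ)
    (lt : List B → (ℕ → ℕ) → ℕ → A) (G : ℕ → List B → (ℕ → ℕ) → ℕ), UF N →
    (∀ a, UP (fun x e => lt x (fun i => e (i + 1)) (e 0) = a)) → (∀ i, UF (G i)) →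
    UF (fun x e => t.eval ((List.range (N x e)).map (lt x e)) (fun i => G i x e))
  | .var i, _, _, _, _, _, hG => hG i
  | .const c, _, _, _, _, _, _ => UF.const c
  | .len, N, lt, G, hN, _, _ => hN.congr fun x e => by
    simp only [Tm.eval, List.length_map, List.length_range]
  | .sym a t, N, lt, G, hN, hl, hG => by
    have ht := wsub_tm t N lt G hN hl hG
    set v : List B → (ℕ → ℕ) → ℕ :=
      fun x e => t.eval ((List.range (N x e)).map (lt x e)) (fun i => G i x e) with hv
    have h1 : UP (fun x e => lt x e (v x e) = a) := by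
      have h2 := UF.subst (hl a) (fun i => Nat.casesOn i v (fun j _ e => e j))
        (fun i => by
          cases i with
          | zero => exact ht
          | succ j => exact UF.var j)
      exact h2
    refine UF.congr ((UP.lt ht hN).and h1) fun x e => ?_
    simp only [Tm.eval]
    have h3 := wsub_get (N x e) (lt x e) (v x e) a
    by_cases h4 : v x e < N x e ∧ lt x e (v x e) = a
    · rw [if_pos h4, if_pos (h3.2 h4)]
    · rw [if_neg h4, if_neg (fun h5 => h4 (h3.1 h5))]
  | .add s t, N, lt, G, hN, hl, hG => (wsub_tm s N lt G hN hl hG).add (wsub_tm t N lt G hN hl hG)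
  | .sub s t, N, lt, G, hN, hl, hG => (wsub_tm s N lt G hN hl hG).sub (wsub_tm t N lt G hN hl hG)
  | .sum b t, N, lt, G, hN, hl, hG => by
    have h := wsub_tm t (fun x e => N x (fun k => e (k + 1)))
      (fun x e => lt x (fun k => e (k + 1)))
      (fun i x e => Nat.casesOn i (e 0) (fun j => G j x (fun k => e (k + 1))))
      (UF.ren (fun k => k + 1) hN)
      (fun a => UF.ren wsubRen (hl a))
      (fun i => by
        cases i with
        | zero => exact UF.var 0
        | succ j => exact UF.ren (fun k => k + 1) (hG j))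
    refine (UF.sum' (wsub_tm b N lt G hN hl hG) h).congr fun x e => ?_
    simp only [Tm.eval]
    refine Finset.sum_congr rfl fun i _ => ?_
    congr 1
    funext j
    cases j <;> rfl
  | .lett s t, N, lt, G, hN, hl, hG => by
    have hs := wsub_tm s N lt G hN hl hG
    have h := wsub_tm t N lt
      (fun i x e => Nat.casesOn i
        (s.eval ((List.range (N x e)).map (lt x e)) (fun i => G i x e)) (fun j => G j x e))
      hN hl
      (fun i => by
        cases i with
        | zero => exact hs
        | succ j => exact hG j)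
    refine h.congr fun x e => ?_
    simp only [Tm.eval]
    congr 1
    funext j
    cases j <;> rfl
  | .ren σ t, N, lt, G, hN, hl, hG => wsub_tm t N lt (fun i => G (σ i)) hN hl (fun i => hG (σ i))

theorem UF.wsub {A B : Type} {f : List A → (ℕ → ℕ) → ℕ} (hf : UF f)
    {N : List B → (ℕ → ℕ) → ℕ} {lt : List B → (ℕ → ℕ) → ℕ → A} (hN : UF N)
    (hl : ∀ a, UP (fun x e => lt x (fun i => e (i + 1)) (e 0) = a))
    {G : ℕ → List B → (ℕ → ℕ) → ℕ} (hG : ∀ i, UF (G i)) :
    UF (fun x e => f ((List.range (N x e)).map (lt x e)) (fun i => G i x e)) := by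
  obtain ⟨t, ht⟩ := hf
  exact (wsub_tm t N lt G hN hl hG).congr fun x e => ht _ _

theorem UP.wsub {A B : Type} {P : List A → (ℕ → ℕ) → Prop} (hP : UP P)
    {N : List B → (ℕ → ℕ) → ℕ} {lt : List B → (ℕ → ℕ) → ℕ → A} (hN : UF N)
    (hl : ∀ a, UP (fun x e => lt x (fun i => e (i + 1)) (e 0) = a))
    {G : ℕ → List B → (ℕ → ℕ) → ℕ} (hG : ∀ i, UF (G i)) :
    UP (fun x e => P ((List.range (N x e)).map (lt x e)) (fun i => G i x e)) :=
  UF.wsub hP hN hl hG

private theorem wmap_tm {A B : Type} [Fintype B] (g : B → A) : ∀ t : Tm A,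
    UF (fun (x : List B) e => t.eval (x.map g) e)
  | .var i => UF.var i
  | .const c => UF.const c
  | .len => UF.len.congr fun x e => by simp only [Tm.eval, List.length_map]
  | .sym a t => by
    have ht := wmap_tm g t
    refine UF.congr (UP.fex (fun b : B => (UP.sym b ht).and (UP.const (g b = a)))) fun x e => ?_
    simp only [Tm.eval]
    have h3 : (∃ b, x[t.eval (x.map g) e]? = some b ∧ g b = a) ↔
        (x.map g)[t.eval (x.map g) e]? = some a := by
      rw [List.getElem?_map, Option.map_eq_some_iff]
    by_cases h4 : (x.map g)[t.eval (x.map g) e]? = some a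
    · rw [if_pos h4, if_pos (h3.2 h4)]
    · rw [if_neg h4, if_neg (fun h5 => h4 (h3.1 h5))]
  | .add s t => (wmap_tm g s).add (wmap_tm g t)
  | .sub s t => (wmap_tm g s).sub (wmap_tm g t)
  | .sum b t => (UF.sum' (wmap_tm g b) (wmap_tm g t)).congr fun x e => by simp only [Tm.eval]
  | .lett s t => (UF.lett (wmap_tm g s) (wmap_tm g t)).congr fun x e => by simp only [Tm.eval]
  | .ren σ t => (UF.ren σ (wmap_tm g t)).congr fun x e => by simp only [Tm.eval]

/-- A relabelled word. -/
theorem UP.wmap {A B : Type} [Fintype B] {P : List A → (ℕ → ℕ) → Prop} (hP : UP P) (g : B → A) :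
    UP (fun (x : List B) e => P (x.map g) e) := by
  obtain ⟨t, ht⟩ := hP
  exact (wmap_tm g t).congr fun x e => ht _ _

/-- The letter at a position, if there is one. -/
theorem UP.getEq {B α : Type} [Fintype B] (g : B → Option α) (o : Option α)
    {f : List B → (ℕ → ℕ) → ℕ} (hf : UF f) :
    UP (fun (x : List B) e => (x[f x e]?).bind g = o) := by
  refine ((UP.fex (fun b : B => (UP.sym b hf).and (UP.const (g b = o)))).or
    ((UP.le UF.len hf).and (UP.const (none = o)))).congr fun x e => ?_
  rcases h : x[f x e]? with _ | b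
  · have h1 : x.length ≤ f x e := List.getElem?_eq_none_iff.1 h
    simp only [Option.bind_none, h1, true_and, reduceCtorEq, false_and, exists_false, false_or]
  · have h1 : ¬ x.length ≤ f x e := by
      intro h2
      rw [List.getElem?_eq_none_iff.2 h2] at h
      cases h
    simp only [Option.bind_some, h1, false_and, or_false, Option.some.injEq]
    constructor
    · rintro ⟨c, rfl, h2⟩
      exact h2
    · intro h2
      exact ⟨b, rfl, h2⟩

end Pool.Agent.BookIm
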