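import Pool.Agent.BookIm.SDefs
import Pool.Agent.BookIm.WSub

/-!
# Padded words
-/

set_option autoImplicit false

namespace Pool.Agent.BookIm

open Pool.Agent.PT Pool.Agent.Book19

variable {α : Type}

theorem length_pd (P : ℕ) (u : List α) : (pd P u).length = P := by
  simp [pd]

theorem getElem?_pd (P : ℕ) (u : List α) (p : ℕ) :
    (pd P u)[p]? = if p < P then some (u[p]?) else none := by
  unfold pd
  rw [List.getElem?_map]
  split_ifs with h
  · rw [List.getElem?_range h]
    rfl
  · rw [List.getElem?_eq_none (by simpa using h)]
    rfl

private theorem pd_eq (P : ℕ) (u : List α) (h : u.length ≤ P) :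
    pd P u = u.map some ++ List.replicate (P - u.length) none := by
  apply List.ext_getElem?
  intro p
  rw [getElem?_pd]
  by_cases h1 : p < u.length
  · rw [if_pos (by omega), List.getElem?_append_left (by simpa using h1), List.getElem?_map,
      List.getElem?_eq_getElem h1]
    rfl
  · rw [List.getElem?_append_right (by simpa using h1), List.length_map, List.getElem?_replicate,
      List.getElem?_eq_none (by omega)]
    by_cases h2 : p < P
    · rw [if_pos h2, if_pos (by omega)]
    · rw [if_neg h2, if_neg (by omega)]

theorem nS_pd (P : ℕ) (u : List α) (h : u.length ≤ P) : nS (pd P u) = u.length := by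
  rw [pd_eq P u h]
  unfold nS
  rw [List.countP_append, List.countP_map]
  have h1 : List.countP (Option.isSome ∘ some) u = u.length := by
    rw [List.countP_eq_length]
    intro a _
    rfl
  have h2 : List.countP Option.isSome (List.replicate (P - u.length) (none : Option α)) = 0 := by
    rw [List.countP_eq_zero]
    intro a ha
    rw [List.eq_of_mem_replicate ha]
    simp
  rw [h1, h2]
  rfl

theorem pd_inj {P : ℕ} {u v : List α} (hu : u.length ≤ P) (hv : v.length ≤ P)
    (h : pd P u = pd P v) : u = v := by
  apply List.ext_getElem?
  intro p
  by_cases h1 : p < P
  · have h2 := congrArg (fun l => l[p]?) h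
    simpa [getElem?_pd, h1] using h2
  · rw [List.getElem?_eq_none (by omega), List.getElem?_eq_none (by omega)]

/-- The padded words are those in which no letter follows a padding letter. -/
theorem isPad_iff (w : List (Option α)) :
    (∃ u : List α, u.length ≤ w.length ∧ w = pd w.length u) ↔
      ∀ p, p < w.length → ((w[p]?).join = none ↔ nS w ≤ p) := by
  constructor
  · rintro ⟨u, hu, hw⟩ p hp
    have h1 : nS w = u.length := by
      rw [hw, nS_pd _ _ hu]
    rw [h1]
    have h2 : w[p]? = some (u[p]?) := by
      rw [hw, getElem?_pd, if_pos hp]
    rw [h2]
    simp
  · intro h
    have hle : nS w ≤ w.length := List.countP_le_length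
    refine ⟨(w.take (nS w)).filterMap id, ?_, ?_⟩
    · refine (List.length_filterMap_le _ _).trans ?_
      rw [List.length_take]
      omega
    · have key : ∀ (v : List (Option α)), (∀ o ∈ v, o.isSome = true) →
          (v.filterMap id).map some = v := by
        intro v
        induction v with
        | nil => intro _; rfl
        | cons o v ih =>
          intro hv
          have h1 := hv o (by simp)
          obtain ⟨a, rfl⟩ := Option.isSome_iff_exists.1 h1
          have h2 := ih (fun o ho => hv o (by simp [ho]))
          change some a :: (v.filterMap id).map some = _
          rw [h2]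
      have h2 : ∀ o ∈ w.take (nS w), o.isSome = true := by
        intro o ho
        obtain ⟨p, hp, rfl⟩ := List.mem_iff_getElem.1 ho
        rw [List.length_take] at hp
        have h3 := h p (by omega)
        rw [List.getElem_take]
        have h4 : w[p]? = some w[p] := List.getElem?_eq_getElem (by omega)
        rw [h4] at h3
        by_contra h5
        have h6 : w[p] = none := by simpa using h5
        have := h3.1 (by rw [h6]; rfl)
        omega
      have h3 := key _ h2
      set u := (w.take (nS w)).filterMap id with hu
      have hul : u.length = nS w := by
        have := congrArg List.length h3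
        rw [List.length_map, List.length_take] at this
        omega
      rw [pd_eq _ _ (by omega), h3, hul]
      apply List.ext_getElem?
      intro p
      by_cases h4 : p < nS w
      · rw [List.getElem?_append_left (by rw [List.length_take]; omega), List.getElem?_take,
          if_pos h4]
      · rw [List.getElem?_append_right (by rw [List.length_take]; omega), List.getElem?_replicate,
          List.length_take]
        by_cases h5 : p < w.length
        · rw [if_pos (by omega)]
          have h6 := (h p h5).2 (by omega)
          rw [List.getElem?_eq_getElem h5] at h6 ⊢
          simpa using h6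
        · rw [if_neg (by omega), List.getElem?_eq_none (by omega)]

theorem uf_nS {B : Type} [Fintype B] (g : B → Option α) :
    UF (fun (x : List B) _ => nS (x.map g)) := by
  refine (UF.countP (fun b : B => (g b).isSome)).congr fun x e => ?_
  unfold nS
  rw [List.countP_map]
  rfl

/-- Padded words in the term calculus. -/
theorem up_isPad {B : Type} [Fintype B] (g : B → Option α) :
    UP (fun (x : List B) _ => ∃ u : List α, u.length ≤ x.length ∧ x.map g = pd x.length u) := by
  refine UP.congr (P := fun (x : List B) _ => ∀ p, p < x.length →
    (At x p (fun b => g b = none) ↔ nS (x.map g) ≤ p)) ?_ ?_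
  · refine UP.ball (P := fun (x : List B) _ p => (At x p (fun b => g b = none) ↔
      nS (x.map g) ≤ p)) UF.len ?_
    exact (UP.at' _ (UF.var 0)).iff (UP.le (uf_nS g) (UF.var 0))
  · intro x e
    have h1 := isPad_iff (x.map g)
    rw [List.length_map] at h1
    rw [h1]
    refine forall_congr' fun p => forall_congr' fun hp => ?_
    refine iff_congr ?_ Iff.rfl
    unfold At
    rw [List.getElem?_map, List.getElem?_eq_getElem hp]
    simp

end Pool.Agent.BookIm
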