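import Pool.Agent.BookIm.VDefs
import Pool.Agent.BookIm.Pad

/-!
# Reading the three tracks
-/

set_option autoImplicit false

namespace Pool.Agent.BookIm

open Pool.Agent.PT Pool.Agent.Book19 Relation

theorem pl_lt {m n : ℕ} (h : m < n) : pl m < pl n := by
  unfold pl
  have h1 : m * m < n * n := Nat.mul_self_lt_mul_self h
  have h2 : Fintype.card CL * (m * m) * (m * m + 1) ≤ Fintype.card CL * (n * n) * (n * n + 1) :=
    Nat.mul_le_mul (Nat.mul_le_mul_left _ h1.le) (by omega)
  omega

theorem le_pl (n : ℕ) : n ≤ pl n := by
  unfold pl
  have h1 : n ≤ n * n := Nat.le_mul_self n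
  omega

private theorem pl_inj {m n : ℕ} (h : pl m = pl n) : m = n := by
  rcases lt_trichotomy m n with h1 | h1 | h1
  · have := pl_lt h1
    omega
  · exact h1
  · have := pl_lt h1
    omega

theorem length_tw (x : List Bool) (τ : List Th) (h : List Bool) :
    (tw x τ h).length = pl x.length := by
  unfold tw
  rw [List.length_map, List.length_range]

private theorem tw_get (x : List Bool) (τ : List Th) (h : List Bool) (p : ℕ) :
    (tw x τ h)[p]? = if p < pl x.length then some (x[p]?, (τ[p]?, h[p]?)) else none := by
  unfold tw
  rw [List.getElem?_map]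
  split_ifs with h1
  · rw [List.getElem?_range h1]
    rfl
  · rw [List.getElem?_eq_none (by rw [List.length_range]; omega)]
    rfl

theorem tw_fst (x : List Bool) (τ : List Th) (h : List Bool) :
    (tw x τ h).map Prod.fst = pad x := by
  unfold tw pad pd
  rw [List.map_map]
  rfl

private theorem cl_le (n : ℕ) : cl n ≤ n := by
  unfold cl
  exact (Nat.div_le_self _ _).trans (Nat.log_le_self 2 n)

private theorem ext_le {α : Type} {l l' : List α} {P : ℕ} (h1 : l.length ≤ P)
    (h2 : l'.length ≤ P) (h : ∀ p, p < P → l[p]? = l'[p]?) : l = l' := by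
  apply List.ext_getElem?
  intro p
  by_cases hp : p < P
  · exact h p hp
  · rw [List.getElem?_eq_none (by omega), List.getElem?_eq_none (by omega)]

private theorem sz_le {n : ℕ} {τ : List Th} {h : List Bool} (hs : Szs n τ h) :
    τ.length ≤ pl n ∧ h.length ≤ pl n := by
  have h1 := cl_le n
  have h2 := le_pl n
  have h3 := hs.1
  have h4 := hs.2
  exact ⟨by omega, by omega⟩

/-- The three tracks can be read from the word. -/
theorem tw_inj {x x' : List Bool} {τ τ' : List Th} {h h' : List Bool} (hs : Szs x.length τ h)
    (hs' : Szs x'.length τ' h') (e : tw x τ h = tw x' τ' h') : x = x' ∧ τ = τ' ∧ h = h' := by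
  have hl : x.length = x'.length := by
    apply pl_inj
    rw [← length_tw x τ h, e, length_tw]
  have hg : ∀ p, p < pl x.length → x[p]? = x'[p]? ∧ τ[p]? = τ'[p]? ∧ h[p]? = h'[p]? := by
    intro p hp
    have h1 : (tw x τ h)[p]? = (tw x' τ' h')[p]? := by rw [e]
    rw [tw_get, tw_get, if_pos hp, if_pos (by rw [← hl]; exact hp)] at h1
    have h2 := Option.some.inj h1
    rw [Prod.mk.injEq, Prod.mk.injEq] at h2
    exact h2
  have b1 := sz_le hs
  have b2 := sz_le hs'
  rw [← hl] at b2
  have b3 := le_pl x.length
  exact ⟨ext_le b3 (by rw [← hl]; exact b3) fun p hp => (hg p hp).1,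
    ext_le b1.1 b2.1 fun p hp => (hg p hp).2.1, ext_le b1.2 b2.2 fun p hp => (hg p hp).2.2⟩

private theorem range_map_get {α : Type} (l : List α) {P : ℕ} (h : l.length ≤ P) :
    (List.range P).map (fun p => l[p]?) = l.map some ++ List.replicate (P - l.length) none := by
  apply List.ext_getElem?
  intro p
  rw [List.getElem?_map]
  by_cases h1 : p < l.length
  · rw [List.getElem?_range (by omega), List.getElem?_append_left (by rw [List.length_map]; exact h1),
      List.getElem?_map]
    show some (l[p]?) = (l[p]?).map some
    rw [List.getElem?_eq_getElem h1]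
    rfl
  · by_cases h2 : p < P
    · rw [List.getElem?_range h2, List.getElem?_append_right (by rw [List.length_map]; omega),
        List.length_map, List.getElem?_replicate, if_pos (by omega)]
      show some (l[p]?) = some none
      rw [List.getElem?_eq_none (by omega)]
    · rw [List.getElem?_eq_none (by rw [List.length_range]; omega),
        List.getElem?_eq_none (by
          rw [List.length_append, List.length_map, List.length_replicate]
          omega)]
      rfl

private theorem countP_get {α : Type} (g : α → Bool) (l : List α) {P : ℕ} (h : l.length ≤ P) :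
    ((List.range P).map (fun p => l[p]?)).countP (fun o => (o.map g).getD false)
      = l.countP g := by
  rw [range_map_get l h, List.countP_append, List.countP_map, List.countP_replicate]
  simp only [Option.map_none, Option.getD_none, Bool.false_eq_true, if_false, add_zero]
  congr 1

theorem cLw_tw {x : List Bool} {τ : List Th} {h : List Bool} (hs : Szs x.length τ h) :
    (tw x τ h).countP (fun a => a.1.isSome) = x.length ∧
    ∀ p, cLw (tw x τ h) p =
      cLf x.length (kT τ) (fun p => x[p]?) (fun p => τ[p]?) (fun p => h[p]?) p := by
  have b1 := sz_le hs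
  have b3 := le_pl x.length
  have c1 : (tw x τ h).countP (fun a => a.1.isSome) = x.length := by
    have h1 := countP_get (fun _ => true) x b3
    have h2 : (tw x τ h).countP (fun a => a.1.isSome)
        = ((List.range (pl x.length)).map (fun p => x[p]?)).countP
          (fun o => (o.map (fun _ => true)).getD false) := by
      unfold tw
      rw [List.countP_map, List.countP_map]
      apply List.countP_congr
      intro p _
      show (x[p]?).isSome = true ↔ ((x[p]?).map (fun _ => true)).getD false = true
      cases x[p]? <;> simp
    rw [h2, h1]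
    simp
  have c2 : (tw x τ h).countP (fun a => (a.2.1.map (fun t => t.1.1)).getD false) = kT τ := by
    have h1 := countP_get (fun t : Th => t.1.1) τ b1.1
    unfold kT
    rw [← h1]
    unfold tw
    rw [List.countP_map, List.countP_map]
    rfl
  refine ⟨c1, ?_⟩
  intro p
  have g1 : (fun p : ℕ => ((tw x τ h)[p]?).bind (fun a : Xi => a.1)) = fun p => x[p]? := by
    funext p
    rw [tw_get]
    split_ifs with hp
    · rfl
    · rw [List.getElem?_eq_none (by omega)]
      rfl
  have g2 : (fun p : ℕ => ((tw x τ h)[p]?).bind (fun a : Xi => a.2.1)) = fun p => τ[p]? := by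
    funext p
    rw [tw_get]
    split_ifs with hp
    · rfl
    · rw [List.getElem?_eq_none (by omega)]
      rfl
  have g3 : (fun p : ℕ => ((tw x τ h)[p]?).bind (fun a : Xi => a.2.2)) = fun p => h[p]? := by
    funext p
    rw [tw_get]
    split_ifs with hp
    · rfl
    · rw [List.getElem?_eq_none (by omega)]
      rfl
  unfold cLw
  rw [c1, c2, g1, g2, g3]

/-- Words with two tracks for words, one for the code and one for the advice. -/
theorem tw_two {w : List (Xi × Option Bool)} {x y : List Bool} {τ τ' : List Th}
    {h h' : List Bool} (hs : Szs x.length τ h) (hs' : Szs y.length τ' h')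
    (e1 : w.map Prod.fst = tw x τ h) (e2 : w.map (fun a => (a.2, a.1.2)) = tw y τ' h') :
    y.length = x.length ∧ τ' = τ ∧ h' = h := by
  have hl : y.length = x.length := by
    apply pl_inj
    rw [← length_tw y τ' h', ← e2, ← length_tw x τ h, ← e1, List.length_map, List.length_map]
  have e3 : (tw x τ h).map Prod.snd = (tw y τ' h').map Prod.snd := by
    rw [← e1, ← e2, List.map_map, List.map_map]
    rfl
  have hg : ∀ p, p < pl x.length → τ'[p]? = τ[p]? ∧ h'[p]? = h[p]? := by
    intro p hp
    have h1 : ((tw x τ h).map Prod.snd)[p]? = ((tw y τ' h').map Prod.snd)[p]? := by rw [e3]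
    rw [List.getElem?_map, List.getElem?_map, tw_get, tw_get, if_pos hp,
      if_pos (by rw [hl]; exact hp)] at h1
    have h2 := Option.some.inj h1
    rw [Prod.mk.injEq] at h2
    exact ⟨h2.1.symm, h2.2.symm⟩
  have b1 := sz_le hs
  have b2 := sz_le hs'
  rw [hl] at b2
  exact ⟨hl, ext_le b2.1 b1.1 fun p hp => (hg p hp).1, ext_le b2.2 b1.2 fun p hp => (hg p hp).2⟩

/-- There is a word with the second track `y`. -/
theorem exists_two {x y : List Bool} (hxy : y.length = x.length) (τ : List Th) (h : List Bool) :
    ∃ w : List (Xi × Option Bool), w.map Prod.fst = tw x τ h ∧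
      w.map (fun a => (a.2, a.1.2)) = tw y τ h := by
  refine ⟨(List.range (pl x.length)).map (fun p => ((x[p]?, (τ[p]?, h[p]?)), y[p]?)), ?_, ?_⟩
  · rw [List.map_map]
    rfl
  · rw [List.map_map]
    unfold tw
    rw [hxy]
    rfl

private theorem val_zeros (l : List (Fin 2)) (k : ℕ) :
    val (l ++ List.replicate k 0) = val l := by
  induction l with
  | nil =>
    induction k with
    | zero => rfl
    | succ k ih =>
      rw [List.nil_append, List.replicate_succ]
      rw [List.nil_append] at ih
      show (0 : Fin 2).1 + 2 * val (List.replicate k 0) = val []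
      rw [ih]
      rfl
  | cons a l ih =>
    show a.1 + 2 * val (l ++ List.replicate k 0) = a.1 + 2 * val l
    rw [ih]

/-- The value of a padded word. -/
theorem val_pad (x : List Bool) :
    val ((pad x).map (fun o : Option Bool => if o = some true then (1 : Fin 2) else 0)) = vl x := by
  unfold pad pd vl
  rw [range_map_get x (le_pl _), List.map_append, List.map_replicate, List.map_map]
  have h1 : (if (none : Option Bool) = some true then (1 : Fin 2) else 0) = 0 := by simp
  rw [h1, val_zeros]
  congr 1
  apply List.map_congr_left
  intro b _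
  cases b <;> simp

theorem vl_inj {x y : List Bool} (hl : x.length = y.length) (h : vl x = vl y) : x = y := by
  have h1 := val_inj (by rw [List.length_map, List.length_map, hl]) h
  apply List.map_injective_iff.2 _ h1
  intro a b hab
  cases a <;> cases b <;> simp_all

end Pool.Agent.BookIm
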