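import Pool.Agent.BookIm.Truth
import Pool.Agent.BookIm.VWord

/-!
# Immunity
-/

set_option autoImplicit false

namespace Pool.Agent.BookIm

open Pool.Agent.PT Pool.Agent.Book19 Relation

/-- A subset of `Rset` in `NSPACE(n)/(n - log n)` is finite. -/
theorem Rset_immune {S : Set (List Bool)} (hS : S ⊆ Rset) (h : AdvLog InLBA S) : S.Finite := by
  classical
  obtain ⟨L', hh, ⟨M, hM⟩, hl, hSL⟩ := h
  obtain ⟨n₀, hn₀⟩ := exists_code M
  refine (List.finite_length_lt Bool (n₀ + 1)).subset fun x hx => ?_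
  rw [Set.mem_ofPred_eq]
  by_contra hlen
  rw [not_lt] at hlen
  -- the smallest word of this length in `S`
  set n := x.length with hn
  have hex : ∃ v, ∃ y ∈ S, y.length = n ∧ vl y = v := ⟨vl x, x, hx, rfl, rfl⟩
  obtain ⟨y, hy, hyn, hyv⟩ := Nat.find_spec hex
  have hmin : ∀ z ∈ S, z.length = n → vl y ≤ vl z := fun z hz hzn => by
    rw [hyv]
    exact Nat.find_min' hex ⟨z, hz, hzn, rfl⟩
  obtain ⟨τ, hτ, hτ2⟩ := hn₀ n (by omega)
  have key : ∀ z : List Bool, z.length = n → (Uv z τ (hh n) ↔ z ∈ S) := by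
    intro z hz
    have hne : trk z (hh n) ≠ [] := by
      intro h0
      have := congrArg List.length h0
      rw [length_trk, hz] at this
      simp only [List.length_nil] at this
      omega
    rw [hτ2 z (hh n) hz, ← hM _ hne, hSL z, hz]
  have hy2 := hS hy
  refine hy2 τ (hh n) (by rw [hyn]; exact hτ) (by rw [hyn]; exact hl n) ⟨(key y hyn).2 hy, ?_⟩
  intro z hz hz2
  have hzn : z.length = n := hz.trans hyn
  exact hmin z ((key z hzn).1 hz2) hzn

end Pool.Agent.BookIm
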