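import Pool.Agent.BookIm.VDefs
import Pool.Agent.BookIm.Pad

/-!
# Well-formed words and initial configurations in the term calculus
-/

set_option autoImplicit false

namespace Pool.Agent.BookIm

open Pool.Agent.PT Pool.Agent.Book19 Relation

theorem uf_pl {Γ : Type} {f : List Γ → (ℕ → ℕ) → ℕ} (hf : UF f) :
    UF (fun x e => pl (f x e)) := by
  unfold pl
  exact (hf.mul hf).add (((UF.const _).mul (hf.mul hf)).mul ((hf.mul hf).add (UF.const 1)))

theorem uf_cl {Γ : Type} {f : List Γ → (ℕ → ℕ) → ℕ} (hf : UF f) :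
    UF (fun x e => cl (f x e)) := by
  unfold cl
  exact (Pool.Agent.BookPL.UF.log2 hf).div (UF.const _)

private theorem vup_log_le (n : ℕ) : Nat.log 2 n ≤ n := by
  rcases Nat.eq_zero_or_pos n with h | h
  · subst h
    simp
  · exact (Nat.log_lt_self 2 h.ne').le

private theorem vup_le_pl (n : ℕ) : n ≤ pl n := by
  unfold pl
  have : n ≤ n * n := Nat.le_mul_self n
  omega

private theorem vup_cl_le (n : ℕ) : cl n ≤ n := by
  unfold cl
  exact (Nat.div_le_self _ _).trans (vup_log_le n)

private theorem vup_length_tw (x : List Bool) (τ : List Th) (h : List Bool) :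
    (tw x τ h).length = pl x.length := by
  unfold tw
  rw [List.length_map, List.length_range]

private theorem vup_wfl (w : List Xi) : w ∈ WFL ↔
    ((∃ u : List Bool, u.length ≤ w.length ∧ w.map (fun a => a.1) = pd w.length u) ∧
      (∃ u : List Th, u.length ≤ w.length ∧ w.map (fun a => a.2.1) = pd w.length u) ∧
      ∃ u : List Bool, u.length ≤ w.length ∧ w.map (fun a => a.2.2) = pd w.length u) ∧
    w.length = pl (nS (w.map (fun a => a.1))) ∧
    nS (w.map (fun a => a.2.1)) = cl (nS (w.map (fun a => a.1))) ∧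
    nS (w.map (fun a => a.2.2)) ≤ nS (w.map (fun a => a.1)) -
      Nat.log 2 (nS (w.map (fun a => a.1))) := by
  constructor
  · rintro ⟨x, τ, h, ⟨h1, h2⟩, rfl⟩
    have hl := vup_length_tw x τ h
    have a1 : x.length ≤ (tw x τ h).length := by
      rw [hl]
      exact vup_le_pl _
    have a2 : τ.length ≤ (tw x τ h).length := by
      rw [h1]
      exact (vup_cl_le _).trans a1
    have a3 : h.length ≤ (tw x τ h).length := (h2.trans (Nat.sub_le _ _)).trans a1
    have e1 : (tw x τ h).map (fun a => a.1) = pd (tw x τ h).length x := by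
      rw [hl]
      unfold tw pd
      rw [List.map_map]
      rfl
    have e2 : (tw x τ h).map (fun a => a.2.1) = pd (tw x τ h).length τ := by
      rw [hl]
      unfold tw pd
      rw [List.map_map]
      rfl
    have e3 : (tw x τ h).map (fun a => a.2.2) = pd (tw x τ h).length h := by
      rw [hl]
      unfold tw pd
      rw [List.map_map]
      rfl
    have n1 := nS_pd _ x a1
    have n2 := nS_pd _ τ a2
    have n3 := nS_pd _ h a3
    rw [← e1] at n1
    rw [← e2] at n2
    rw [← e3] at n3
    refine ⟨⟨⟨x, a1, e1⟩, ⟨τ, a2, e2⟩, ⟨h, a3, e3⟩⟩, ?_, ?_, ?_⟩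
    · rw [n1]
      exact hl
    · rw [n1, n2]
      exact h1
    · rw [n1, n3]
      exact h2
  · rintro ⟨⟨⟨x, a1, e1⟩, ⟨τ, a2, e2⟩, ⟨h, a3, e3⟩⟩, b1, b2, b3⟩
    rw [e1, nS_pd _ _ a1] at b1
    rw [e1, e2, nS_pd _ _ a1, nS_pd _ _ a2] at b2
    rw [e1, e3, nS_pd _ _ a1, nS_pd _ _ a3] at b3
    refine ⟨x, τ, h, ⟨b2, b3⟩, ?_⟩
    apply List.ext_getElem?
    intro p
    have g1 := congrArg (fun l : List (Option Bool) => l[p]?) e1
    have g2 := congrArg (fun l : List (Option Th) => l[p]?) e2
    have g3 := congrArg (fun l : List (Option Bool) => l[p]?) e3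
    simp only [List.getElem?_map, getElem?_pd] at g1 g2 g3
    unfold tw
    rw [List.getElem?_map, ← b1]
    by_cases hp : p < w.length
    · rw [if_pos hp, List.getElem?_eq_getElem hp, Option.map_some, Option.some.injEq] at g1 g2 g3
      rw [List.getElem?_eq_getElem hp, List.getElem?_range hp, Option.map_some, ← g1, ← g2, ← g3]
    · rw [List.getElem?_eq_none (by omega), List.getElem?_eq_none (by simp; omega)]
      rfl

theorem up_WFL : UP (fun (w : List Xi) _ => w ∈ WFL) := by
  have u1 := uf_nS (fun a : Xi => a.1)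
  have u2 := uf_nS (fun a : Xi => a.2.1)
  have u3 := uf_nS (fun a : Xi => a.2.2)
  refine (((up_isPad (fun a : Xi => a.1)).and ((up_isPad (fun a : Xi => a.2.1)).and
    (up_isPad (fun a : Xi => a.2.2)))).and ((UP.eq UF.len (uf_pl u1)).and
    ((UP.eq u2 (uf_cl u1)).and (UP.le u3 (u1.sub (Pool.Agent.BookPL.UF.log2 u1)))))).congr
    fun w e => ?_
  exact (vup_wfl w).symm

theorem up_pad : UP (fun (w : List (Option Bool)) _ => ∃ x : List Bool, w = pad x) := by
  have u1 := uf_nS (fun a : Option Bool => a)
  refine ((up_isPad (fun a : Option Bool => a)).and (UP.eq UF.len (uf_pl u1))).congr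
    fun w e => ?_
  rw [List.map_id']
  constructor
  · rintro ⟨⟨u, h1, h2⟩, h3⟩
    refine ⟨u, ?_⟩
    have h4 := nS_pd w.length u h1
    rw [← h2] at h4
    unfold pad
    rw [h4] at h3
    rw [← h3]
    exact h2
  · rintro ⟨x, rfl⟩
    have hl : (pad x).length = pl x.length := by
      unfold pad
      exact length_pd _ _
    have h1 : x.length ≤ pl x.length := vup_le_pl _
    refine ⟨⟨x, by rw [hl]; exact h1, by rw [hl]; rfl⟩, ?_⟩
    rw [hl]
    unfold pad
    rw [nS_pd _ _ h1]

private theorem vup_decide {Γ : Type} {P : List Γ → (ℕ → ℕ) → Prop}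
    {inst : ∀ x e, Decidable (P x e)} (hP : UP P) (b : Bool) :
    UP (fun x e => @decide (P x e) (inst x e) = b) := by
  cases b
  · refine hP.not.congr fun x e => ?_
    simp
  · refine hP.congr fun x e => ?_
    simp

private theorem vup_some {B α : Type} [Fintype B] (g : B → Option α) (P : α → Prop)
    {f : List B → (ℕ → ℕ) → ℕ} (hf : UF f) :
    UP (fun (x : List B) e => ∃ t, (x[f x e]?).bind g = some t ∧ P t) := by
  classical
  refine (UP.getEq (fun b => (g b).bind fun t => if P t then some () else none) (some ()) hf).congr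
    fun x e => ?_
  rw [← Option.bind_assoc]
  constructor
  · intro h
    rw [Option.bind_eq_some_iff] at h
    obtain ⟨t, h1, h2⟩ := h
    refine ⟨t, h1, ?_⟩
    by_contra hn
    rw [if_neg hn] at h2
    exact absurd h2 (by simp)
  · rintro ⟨t, h1, h2⟩
    rw [h1, Option.bind_some, if_pos h2]

theorem up_cLw (a : CL) : UP (fun (w : List Xi) e => cLw w (e 0) = a) := by
  classical
  have un : UF (fun (w : List Xi) _ => w.countP (fun a => a.1.isSome)) := UF.countP _
  have uk : UF (fun (w : List Xi) _ =>
      w.countP (fun a => (a.2.1.map (fun t => t.1.1)).getD false)) := UF.countP _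
  have up0 : UF (fun (_ : List Xi) e => e 0) := UF.var 0
  have ud := up0.div un
  have um := up0.mod un
  obtain ⟨a1, a2, a3, a4, a5, a6⟩ := a
  -- the components
  have c1 := vup_decide (inst := fun _ _ => inferInstance) (UP.lt up0 un) a1
  have c2a := UP.getEq (fun b : Xi => b.2.1.bind (fun t => t.2)) a2 ((ud.mul uk).add um)
  have c2b := UP.getEq (fun b : Xi => (b.2.1.bind (fun t => t.2)).map er) a2 (ud.mul uk)
  have c2 := ((UP.lt um uk).imp c2a).and ((UP.lt um uk).not.imp c2b)
  have c3 := vup_decide (inst := fun _ _ => Classical.propDecidable _)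
    (vup_some (fun b : Xi => b.2.1) (fun t => t.1.2.2 = true) um) a3
  have c4 := UP.const (Γ := Xi) (false = a4)
  have c5 := vup_decide (inst := fun _ _ => Classical.propDecidable _)
    (UP.fex (fun p : Bool × Option Bool => ((UP.getEq (fun b : Xi => b.1) (some p.1) ud).and
      (UP.getEq (fun b : Xi => b.2.2) p.2 ud)).and (UP.eq (UF.const (ixB p)) um))) a5
  have c6 := vup_decide (inst := fun _ _ => Classical.propDecidable _)
    ((UP.eq ud (UF.const 0)).and (vup_some (fun b : Xi => b.2.1) (fun t => t.1.2.1 = true) um)) a6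
  refine (c1.and (c2.and (c3.and (c4.and (c5.and c6))))).congr fun w e => ?_
  unfold cLw cLf
  rw [CL.mk.injEq]
  refine and_congr ?_ (and_congr ?_ (and_congr ?_ (and_congr Iff.rfl (and_congr ?_ ?_))))
  · exact Iff.of_eq (congrArg (· = a1) (by congr))
  · unfold tabF
    by_cases h : e 0 % w.countP (fun a => a.1.isSome) <
        w.countP (fun a => (a.2.1.map (fun t => t.1.1)).getD false)
    · rw [if_pos h, ← Option.bind_assoc]
      constructor
      · intro h1
        exact h1.1 h
      · intro h1
        exact ⟨fun _ => h1, fun h2 => absurd h h2⟩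
    · rw [if_neg h]
      have e2 : ∀ o : Option Xi, (o.bind fun b => (b.2.1.bind (fun t => t.2)).map er) =
          ((o.bind fun b => b.2.1).bind fun t => t.2).map er := by
        intro o
        cases o <;> rfl
      rw [← e2]
      constructor
      · intro h1
        exact h1.2 h
      · intro h1
        exact ⟨fun h2 => absurd h2 h, fun _ => h1⟩
  · exact Iff.of_eq (congrArg (· = a3) (by congr))
  · have e5 : (∃ p : Bool × Option Bool, (((w[e 0 / w.countP (fun a => a.1.isSome)]?).bind
        (fun b : Xi => b.1) = some p.1) ∧ ((w[e 0 / w.countP (fun a => a.1.isSome)]?).bind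
        (fun b : Xi => b.2.2) = p.2)) ∧ ixB p = e 0 % w.countP (fun a => a.1.isSome)) ↔
        ∃ a, (w[e 0 / w.countP (fun a => a.1.isSome)]?).bind (fun b : Xi => b.1) = some a ∧
          ixB (a, (w[e 0 / w.countP (fun a => a.1.isSome)]?).bind (fun b : Xi => b.2.2)) =
            e 0 % w.countP (fun a => a.1.isSome) := by
      constructor
      · rintro ⟨⟨p, q⟩, ⟨h1, h2⟩, h3⟩
        refine ⟨p, h1, ?_⟩
        rw [h2]
        exact h3
      · rintro ⟨p, h1, h2⟩
        exact ⟨(p, _), ⟨h1, rfl⟩, h2⟩
    exact Iff.of_eq (congrArg (· = a5) (decide_eq_decide.2 e5))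
  · exact Iff.of_eq (congrArg (· = a6) (by congr))

end Pool.Agent.BookIm
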