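import Pool.Agent.BookIm.VWord
import Pool.Agent.BookIm.VUP

/-!
# Unpadding in P and NP
-/

set_option autoImplicit false

namespace Pool.Agent.BookIm

open Pool.Agent.PT Pool.Agent.Book19 Relation

theorem pad_inj {x y : List Bool} (h : pad x = pad y) : x = y := by
  have h1 : pl x.length = pl y.length := by
    have h2 := congrArg List.length h
    unfold pad at h2
    rwa [length_pd, length_pd] at h2
  have h2 : x.length = y.length := by
    rcases lt_trichotomy x.length y.length with h3 | h3 | h3
    · exact absurd h1 (pl_lt h3).ne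
    · exact h3
    · exact absurd h1 (pl_lt h3).ne'
  unfold pad at h
  rw [← h2] at h
  exact pd_inj (le_pl _) (h2 ▸ le_pl _) h

theorem pad_comap {𝒟 : ∀ A : Type, Set (List A) → Prop} (h𝒟 : GoodD 𝒟)
    {S : Set (List (Option Bool))} (hS : 𝒟 _ S) : 𝒟 _ {x : List Bool | pad x ∈ S} := by
  refine h𝒟.comap hS pad (fun x => pl x.length) (fun x p => x[p]?) (uf_pl UF.len) (fun a => ?_)
    (fun x => rfl)
  cases a with
  | none =>
    refine (UP.le (Γ := Bool) UF.len (UF.var 0)).congr fun x e => ?_
    rw [List.getElem?_eq_none_iff]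
  | some b => exact UP.sym b (UF.var 0)

end Pool.Agent.BookIm
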