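import Pool.Agent.BookIm.LD
import Pool.Agent.BookIm.Imm
import Pool.Agent.BookIm.Count
import Pool.Agent.BookIm.PadD

/-!
# The immune book theorem
-/

set_option autoImplicit false

namespace Pool.Agent.BookIm

open Pool.Agent.PT Pool.Agent.Book19 Relation

theorem L0_infinite : L0.Infinite := by
  have h1 : (Rset).Infinite := by
    intro hfin
    obtain ⟨B, hB⟩ := (hfin.image List.length).bddAbove
    obtain ⟨x, hx, hl⟩ := exists_mem_Rset (B + 2) (by omega)
    have h2 := hB ⟨x, hx, rfl⟩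
    rw [hl] at h2
    omega
  have h2 : L0 = pad '' Rset := by
    ext w
    constructor
    · rintro ⟨x, hx, rfl⟩
      exact ⟨x, hx, rfl⟩
    · rintro ⟨x, hx, rfl⟩
      exact ⟨x, hx, rfl⟩
  rw [h2]
  exact h1.image (fun x _ y _ h => pad_inj h)

/-- `𝒟` and the language `L` form an immune pair: `L` has no infinite subset in `𝒟`, or `𝒟`
contains an infinite language without infinite subset in `NSPACE(n)/(n - log n)`. -/
def ImmAlt (𝒟 : ∀ A : Type, Set (List A) → Prop) (L : Set (List (Option Bool))) : Prop :=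
  (∀ S ⊆ L, S.Infinite → ¬ 𝒟 _ S) ∨
    ∃ L1 : Set (List Bool), 𝒟 _ L1 ∧ L1.Infinite ∧ ∀ S ⊆ L1, S.Infinite → ¬ AdvLog InLBA S

theorem core_pad {𝒟 : ∀ A : Type, Set (List A) → Prop}
    (h𝒟 : ∀ S : Set (List (Option Bool)), 𝒟 _ S → 𝒟 _ {x : List Bool | pad x ∈ S}) :
    ImmAlt 𝒟 L0 := by
  unfold ImmAlt
  by_cases hc : ∀ S ⊆ L0, S.Infinite → ¬ 𝒟 _ S
  · exact Or.inl hc
  · right
    push Not at hc
    obtain ⟨S, hS, hinf, hD⟩ := hc
    refine ⟨{x | pad x ∈ S}, h𝒟 S hD, ?_, ?_⟩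
    · intro hfin
      apply hinf
      refine (hfin.image pad).subset ?_
      intro w hw
      obtain ⟨x, _, rfl⟩ := hS hw
      exact ⟨x, hw, rfl⟩
    · intro T hT hTinf hA
      refine hTinf (Rset_immune ?_ hA)
      intro x hx
      obtain ⟨y, hy, hxy⟩ := hS (hT hx)
      rw [pad_inj hxy]
      exact hy

theorem core {𝒟 : ∀ A : Type, Set (List A) → Prop} (h𝒟 : GoodD 𝒟) : ImmAlt 𝒟 L0 :=
  core_pad fun _ hS => pad_comap h𝒟 hS

end Pool.Agent.BookIm
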