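import Pool.Agent.BookIm.QDefs

/-!
# Savitch's theorem as a quantified statement

Reachability in at most `2 ^ K` steps of a relation on words of length `m` is stated with `K`
blocks of quantifiers: each block chooses existentially a word `c` and universally one of the two
halves. The blocks are placed behind the `m` letters of the padded word; each block has `m + 1`
letters, the first one for the universal quantifier.
-/

set_option autoImplicit false

namespace Pool.Agent.BookIm

open Pool.Agent.PT Pool.Agent.Book19 Relation

/-- The word `u`, padded to length `P`. -/
def pd {α : Type} (P : ℕ) (u : List α) : List (Option α) := (List.range P).map (fun p => u[p]?)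

/-- The number of letters which are not padding. -/
def nS {α : Type} (w : List (Option α)) : ℕ := w.countP Option.isSome

/-- `b` is reached from `a` in at most `2 ^ K` steps. -/
def RK {S : Type} (E : List S → List S → Prop) (m : ℕ) : ℕ → List S → List S → Prop
  | 0, a, b => a = b ∨ E a b
  | k + 1, a, b => ∃ c : List S, c.length = m ∧ RK E m k a c ∧ RK E m k c b

/-- The relation of a language of pairs of words. -/
def EL {S : Type} (U : Set (List (S × S))) (a b : List S) : Prop :=
  a.length = b.length ∧ a.zip b ∈ U

/-- One end of the remaining interval: `e i` is the choice in block `i`, `M i` the word chosen. -/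
def cur {T : Type} (e : ℕ → Bool) (M : ℕ → T) (b : Bool) : ℕ → T → T
  | 0, a => a
  | i + 1, a => cur e M b i (if e i = b then M i else a)

/-- The number of blocks. -/
def KN (l m : ℕ) : ℕ := (l - m) / (m + 1)

/-- The letters of the base word and the marks of the quantifiers. -/
abbrev SA (S : Type) : Type := Option (S × S) × Bool

/-- The quantified letters. -/
abbrev SZ (S : Type) : Type := S × Bool

/-- The mark at a position: universal at the beginning of the blocks. -/
def mkq (m p : ℕ) : Bool := !(decide (m ≤ p ∧ (p - m) % (m + 1) = 0))

/-- The word with the marks of the quantifiers. -/
def mkd {S : Type} (w : List (Option (S × S))) : List (SA S) :=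
  (List.range w.length).map (fun p => ((w[p]?).join, mkq (nS w) p))

section matrix

variable {S : Type} [Inhabited S] (u : List (SA S × SZ S))

/-- The length of the words. -/
def mU : ℕ := u.countP (fun a => a.1.1.isSome)

/-- The number of blocks. -/
def KU : ℕ := KN u.length (mU u)

/-- The choice in block `i`. -/
def ebU (i : ℕ) : Bool := ((u[mU u + i * (mU u + 1)]?).map (fun a => a.2.2)).getD true

/-- The letters of the word chosen in block `i`. -/
def midL (i p : ℕ) : S := ((u[mU u + i * (mU u + 1) + 1 + p]?).map (fun a => a.2.1)).getD default

/-- The word chosen in block `i`. -/
def midU (i : ℕ) : List S := (List.range (mU u)).map (midL u i)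

/-- The letters of the two words of the base. -/
def baseL (b : Bool) (p : ℕ) : S :=
  (((u[p]?).bind (fun a => a.1.1)).map (fun x => if b = true then x.1 else x.2)).getD default

/-- The two words of the base. -/
def baseU (b : Bool) : List S := (List.range (mU u)).map (baseL u b)

/-- The end `b` of the remaining interval. -/
def curU (b : Bool) : List S := cur (ebU u) (midU u) b (KU u) (baseU u b)

/-- The matrix. -/
def SMat (U : Set (List (S × S))) : Prop :=
  curU u true = curU u false ∨ (curU u true).zip (curU u false) ∈ U

end matrix

open Classical in
/-- The language of reachability, with much padding. -/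
def SavL {S : Type} [Fintype S] (U : Set (List (S × S))) : Set (List (Option (S × S))) :=
  {w | ∃ a b : List S, a.length = b.length ∧ a.length ≤ w.length ∧ w = pd w.length (a.zip b) ∧
    Fintype.card S * a.length ≤ KN w.length a.length ∧ ReflTransGen (EL U) a b}

end Pool.Agent.BookIm
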