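import Pool.Agent.Book19.Core
import Pool.Agent.BookPL.Log2
import Pool.Agent.BookIm.SDefs

/-!
# The immune language

A machine is coded by a word `τ` of letters `Th` (marks for the block length, the initial state and
the accepting states, and the table); its advice is a word `h` of at most `n - log n` bits. The
word `x` of length `n` is in `Rset` if it is not the first word of its length accepted by a coded
machine with code and advice of the lengths allowed.
-/

set_option autoImplicit false

namespace Pool.Agent.BookIm

open Pool.Agent.PT Pool.Agent.Book19 Relation

/-- `L ∈ 𝒞/(n - log n)`: there are `L' ∈ 𝒞` and advice words `h n` of at most `n - log n` bits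
such that `x ∈ L ↔ (x with advice h |x|) ∈ L'` for all words `x`. -/
def AdvLog (𝒞 : ∀ A : Type, Set (List A) → Prop) {A : Type} (L : Set (List A)) : Prop :=
  ∃ (L' : Set (List (A × Option Bool))) (h : ℕ → List Bool), 𝒞 _ L' ∧
    (∀ n, (h n).length ≤ n - Nat.log 2 n) ∧ ∀ x : List A, x ∈ L ↔ trk x (h x.length) ∈ L'

/-- Letters of the codes: marks for the block length, the initial state, the accepting states, and
the table. -/
abbrev Th : Type := (Bool × Bool × Bool) × Option TL

/-- The length of the codes. -/
noncomputable def cl (n : ℕ) : ℕ := Nat.log 2 n / (Fintype.card Th + 1)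

/-- The length of the padded words. -/
noncomputable def pl (n : ℕ) : ℕ :=
  n * n + Fintype.card CL * (n * n) * (n * n + 1)

/-- Letters of the three tracks: the word, the code, the advice. -/
abbrev Xi : Type := Option Bool × (Option Th × Option Bool)

/-- The index of an input letter. -/
noncomputable def ixB (x : Bool × Option Bool) : ℕ := (Fintype.equivFin (Bool × Option Bool) x : ℕ)

/-- A letter of the table without the marks for states and symbols. -/
def er (t : TL) : TL := { t with tq := false, ts := false, tq' := false, ts' := false }

/-- The table, stretched from blocks of length `k` to blocks of length `n`. -/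
def tabF (n k : ℕ) (T : ℕ → Option Th) (p : ℕ) : Option TL :=
  if p % n < k then (T (p / n * k + p % n)).bind (fun t => t.2)
  else ((T (p / n * k)).bind (fun t => t.2)).map er

open Classical in
/-- The letters of the initial configuration with the input letters `X`, the letters of the code
`T` and the bits of the advice `H`. -/
noncomputable def cLf (n k : ℕ) (X : ℕ → Option Bool) (T : ℕ → Option Th) (H : ℕ → Option Bool)
    (p : ℕ) : CL :=
  { km := decide (p < n)
    tab := tabF n k T p
    f1 := decide (∃ t, T (p % n) = some t ∧ t.1.2.2 = true)
    f2 := false
    sym := decide (∃ a, X (p / n) = some a ∧ ixB (a, H (p / n)) = p % n)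
    st := decide (p / n = 0 ∧ ∃ t, T (p % n) = some t ∧ t.1.2.1 = true) }

/-- The block length given by a code. -/
def kT (τ : List Th) : ℕ := τ.countP (fun t => t.1.1)

/-- The initial configuration word. -/
noncomputable def cw (x : List Bool) (τ : List Th) (h : List Bool) : List CL :=
  (List.range (x.length * x.length)).map
    (cLf x.length (kT τ) (fun p => x[p]?) (fun p => τ[p]?) (fun p => h[p]?))

/-- The coded machine accepts `x` with advice `h`. -/
def Uv (x : List Bool) (τ : List Th) (h : List Bool) : Prop :=
  ∃ c, ReflTransGen UStep (cw x τ h) c ∧ ∃ a ∈ c, a.st = true ∧ a.f1 = true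

/-- The number of a word. -/
def vl (x : List Bool) : ℕ := val (x.map (fun b => if b = true then (1 : Fin 2) else 0))

/-- The word `x` is the first word accepted. -/
def FirstW (x : List Bool) (τ : List Th) (h : List Bool) : Prop :=
  Uv x τ h ∧ ∀ y : List Bool, y.length = x.length → Uv y τ h → vl x ≤ vl y

/-- The words which are not the first word accepted for any code and advice. -/
def Rset : Set (List Bool) :=
  {x | ∀ τ h, τ.length = cl x.length → h.length ≤ x.length - Nat.log 2 x.length →
    ¬ FirstW x τ h}

/-- The padded word. -/
noncomputable def pad (x : List Bool) : List (Option Bool) := pd (pl x.length) x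

/-- The immune language. -/
def L0 : Set (List (Option Bool)) := {w | ∃ x ∈ Rset, w = pad x}

end Pool.Agent.BookIm
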