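import Pool.Agent.BookIm.Core

/-!
# Book's theorem for linear space against P and NP in the sense of immunity

There is one infinite language `L0` in DSPACE(n) such that for `𝒟 = P` and for `𝒟 = NP`: `L0` has
no infinite subset in `𝒟`, or `𝒟` contains an infinite language which has no infinite subset in
`NSPACE(n)/(n - log n)`. The same holds for every class `𝒟` of languages which is closed under the
inverse image of one fixed padding map.
-/

set_option autoImplicit false

namespace Pool.Agent.BookIm.ImmuneBook

open Pool.Agent.PT Pool.Agent.Book19 Pool.Agent.BookIm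

/-- The word `x` followed by padding symbols up to the length `n^2 + k n^2 (n^2 + 1)`, where
`n = |x|`. -/
def padW (k : ℕ) (x : List Bool) : List (Option Bool) :=
  x.map some ++ List.replicate
    (x.length ^ 2 + k * x.length ^ 2 * (x.length ^ 2 + 1) - x.length) none

/-- The language `L` has no infinite subset in `𝒟`, or `𝒟` contains an infinite language without
infinite subset in `NSPACE(n)/(n - log n)`. -/
def Alt (𝒟 : ∀ A : Type, Set (List A) → Prop) (L : Set (List (Option Bool))) : Prop :=
  (∀ S ⊆ L, S.Infinite → ¬ 𝒟 _ S) ∨
    ∃ L1 : Set (List Bool), 𝒟 _ L1 ∧ L1.Infinite ∧ ∀ S ⊆ L1, S.Infinite → ¬ AdvLog InLBA S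

private theorem pad_eq (x : List Bool) : padW (Fintype.card CL) x = pad x := by
  have h1 : x.length ≤ pl x.length := le_pl _
  have h2 : x.length ^ 2 + Fintype.card CL * x.length ^ 2 * (x.length ^ 2 + 1) = pl x.length := by
    unfold pl
    ring
  unfold padW pad
  rw [h2]
  apply List.ext_getElem?
  intro p
  rw [getElem?_pd]
  by_cases h3 : p < x.length
  · rw [if_pos (by omega), List.getElem?_append_left (by simpa using h3), List.getElem?_map,
      List.getElem?_eq_getElem h3]
    rfl
  · rw [List.getElem?_append_right (by simpa using h3), List.length_map, List.getElem?_replicate,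
      List.getElem?_eq_none (by omega : x.length ≤ p)]
    by_cases h4 : p < pl x.length
    · rw [if_pos h4, if_pos (by omega)]
    · rw [if_neg h4, if_neg (by omega)]

/-- One infinite language `L0` in DSPACE(n) such that for P, for NP and for every class `𝒟` closed
under the inverse image of the padding map `padW k`: `L0` has no infinite subset in `𝒟`, or `𝒟`
contains an infinite language without infinite subset in `NSPACE(n)/(n - log n)`. -/
theorem result : ∃ (L0 : Set (List (Option Bool))) (k : ℕ), InDLBA _ L0 ∧ L0.Infinite ∧
    Alt InP L0 ∧ Alt InNPc L0 ∧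
    ∀ 𝒟 : ∀ A : Type, Set (List A) → Prop,
      (∀ S : Set (List (Option Bool)), 𝒟 _ S → 𝒟 _ {x : List Bool | padW k x ∈ S}) →
        Alt 𝒟 L0 := by
  refine ⟨BookIm.L0, Fintype.card CL, dl_L0, L0_infinite, core goodD_P, core goodD_NP, ?_⟩
  intro 𝒟 h𝒟
  refine core_pad fun S hS => ?_
  have h1 := h𝒟 S hS
  simpa only [pad_eq] using h1

end Pool.Agent.BookIm.ImmuneBook
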