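import Pool.Agent.BookIm.VD

/-!
# The immune language is in deterministic linear space
-/

set_option autoImplicit false

namespace Pool.Agent.BookIm

open Pool.Agent.PT Pool.Agent.Book19 Relation

/-- The digit of a letter. -/
private def ldD (o : Option Bool) : Fin 2 := if o = some true then 1 else 0

private theorem ld_pad_inj {x y : List Bool} (h : pad x = pad y) : x = y := by
  unfold pad at h
  have h1 : pl x.length = pl y.length := by
    rw [← length_pd (pl x.length) x, h, length_pd]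
  have h2 : x.length = y.length := by
    rcases lt_trichotomy x.length y.length with h3 | h3 | h3
    · have := pl_lt h3; omega
    · exact h3
    · have := pl_lt h3; omega
  rw [h2] at h
  exact pd_inj (by rw [h2]; exact le_pl _) (le_pl _) h

/-- The words with a second word accepted before the first one. -/
private def ldS : Set (List (Xi × Option Bool)) :=
  {w | w ∈ {w : List (Xi × Option Bool) | w.map (fun a => ((a.2, a.1.2) : Xi)) ∈ VL} ∧
    w ∈ {w : List (Xi × Option Bool) | w ∉ {w : List (Xi × Option Bool) |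
      val (w.map (fun a => ldD a.1.1)) ≤ val (w.map (fun a => ldD a.2))}}}

private theorem dl_ldS : InDLBA _ ldS :=
  (InDLBA.map (fun a : Xi × Option Bool => ((a.2, a.1.2) : Xi)) dl_VL).inter
    (dl_vle (fun a : Xi × Option Bool => ldD a.1.1) (fun a => ldD a.2)).compl

private def ldF : Set (List Xi) :=
  {w | w ∈ VL ∧ w ∈ {w : List Xi | w ∉ {w : List Xi | ∃ w' : List (Xi × Option Bool),
    w'.map Prod.fst = w ∧ w' ∈ ldS}}}

private theorem dl_ldF : InDLBA _ ldF := dl_VL.inter (InDLBA.ex dl_ldS).compl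

private theorem ld_val1 {w : List (Xi × Option Bool)} {x : List Bool} {τ : List Th}
    {h : List Bool} (e : w.map Prod.fst = tw x τ h) :
    val (w.map (fun a => ldD a.1.1)) = vl x := by
  rw [← val_pad x, ← tw_fst x τ h, ← e, List.map_map, List.map_map]
  rfl

private theorem ld_val2 {w : List (Xi × Option Bool)} {x : List Bool} {τ : List Th}
    {h : List Bool} (e : w.map (fun a => ((a.2, a.1.2) : Xi)) = tw x τ h) :
    val (w.map (fun a => ldD a.2)) = vl x := by
  rw [← val_pad x, ← tw_fst x τ h, ← e, List.map_map, List.map_map]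
  rfl

private theorem mem_ldF {x : List Bool} {τ : List Th} {h : List Bool}
    (hs : Szs x.length τ h) : tw x τ h ∈ ldF ↔ FirstW x τ h := by
  constructor
  · rintro ⟨⟨x', τ', h', hs', e, hU⟩, hn⟩
    obtain ⟨rfl, rfl, rfl⟩ := tw_inj hs hs' e
    refine ⟨hU, fun y hy hUy => ?_⟩
    by_contra hcon
    obtain ⟨w3, e1, e2⟩ := exists_two hy τ h
    refine hn ⟨w3, e1, ?_, ?_⟩
    · change w3.map (fun a => ((a.2, a.1.2) : Xi)) ∈ VL
      rw [e2]
      exact ⟨y, τ, h, by rw [hy]; exact hs, rfl, hUy⟩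
    · intro hle
      change val (w3.map (fun a => ldD a.1.1)) ≤ val (w3.map (fun a => ldD a.2)) at hle
      rw [ld_val1 e1, ld_val2 e2] at hle
      exact hcon hle
  · rintro ⟨hU, hmin⟩
    refine ⟨⟨x, τ, h, hs, rfl, hU⟩, ?_⟩
    rintro ⟨w3, e1, ⟨y, τ', h', hs', e2, hUy⟩, hn⟩
    obtain ⟨hy, rfl, rfl⟩ := tw_two hs hs' e1 e2
    apply hn
    change val (w3.map (fun a => ldD a.1.1)) ≤ val (w3.map (fun a => ldD a.2))
    rw [ld_val1 e1, ld_val2 e2]
    exact hmin y hy hUy

theorem dl_L0 : InDLBA _ L0 := by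
  have h1 : InDLBA _ {w : List (Option Bool) | ∃ x : List Bool, w = pad x} := inDLBA_of_UP up_pad
  refine (h1.inter (InDLBA.ex (Γ := Option Bool) (T := Option Th × Option Bool)
    (L := ldF) dl_ldF).compl).congr ?_
  intro w _
  constructor
  · rintro ⟨x, hx, rfl⟩
    refine ⟨⟨x, rfl⟩, ?_⟩
    rintro ⟨w2, e, hw2⟩
    obtain ⟨x', τ, h, hs, rfl, -⟩ := hw2.1
    rw [tw_fst] at e
    have hxx := ld_pad_inj e
    subst hxx
    exact hx τ h hs.1 hs.2 ((mem_ldF hs).1 hw2)
  · rintro ⟨⟨x, rfl⟩, hn⟩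
    refine ⟨x, fun τ h h1 h2 hF => hn ⟨tw x τ h, tw_fst x τ h, ?_⟩, rfl⟩
    exact (mem_ldF ⟨h1, h2⟩).2 hF

end Pool.Agent.BookIm
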