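import Pool.Agent.Book19.ULoop

/-!
# Quantified words

Quantifiers over the letters of a word on a second track, one quantifier for each letter; the
quantifier of the last letter is the outermost one. The evaluation runs through all words on the
second track in the order in which the first digit is the least significant one; on a third track
every position stores the value of the quantified statement for the digits tried so far.
-/

set_option autoImplicit false

namespace Pool.Agent.BookIm

open Pool.Agent.PT Pool.Agent.Book19 Relation

/-- `F` with its letters quantified: existentially if `q a = true`, universally otherwise; the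
quantifier of the last letter is the outermost one. -/
def QW {A Z : Type} (q : A → Bool) : List A → (List (A × Z) → Prop) → Prop
  | [], F => F []
  | a :: w, F => QW q w (fun u => if q a = true then ∃ z, F ((a, z) :: u) else ∀ z, F ((a, z) :: u))

/-- Letter, digit, stored value. -/
abbrev QS (A : Type) (m : ℕ) : Type := A × (Fin m × Bool)

/-- The value after a position: decided by the stored value if this is the value `q a`. -/
def xn {A : Type} {m : ℕ} (q : A → Bool) (X : Bool) (s : QS A m) : Bool :=
  if s.2.2 = q s.1 then q s.1 else X

/-- The next word of the evaluation; `X` is the value at the positions before. -/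
def stp {A : Type} {m : ℕ} (q : A → Bool) : Bool → List (QS A m) → List (QS A m)
  | _, [] => []
  | X, s :: w =>
    if h : s.2.1.1 + 1 < m then (s.1, (⟨s.2.1.1 + 1, h⟩, xn q X s)) :: w
    else (s.1, (⟨0, Nat.zero_lt_of_lt s.2.1.2⟩, !q s.1)) :: stp q (xn q X s) w

/-- The final value. -/
def fin {A : Type} {m : ℕ} (q : A → Bool) (X : Bool) (w : List (QS A m)) : Bool :=
  w.foldl (xn q) X

/-- The letters with their digits. -/
def asg {A : Type} {m : ℕ} (w : List (QS A m)) : List (A × Fin m) := w.map (fun s => (s.1, s.2.1))

/-- All digits are the last one. -/
def AllMax {A : Type} {m : ℕ} (w : List (QS A m)) : Prop := ∀ s ∈ w, s.2.1.1 + 1 = m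

/-- The first word of the evaluation. -/
def qini {A : Type} {m : ℕ} (hm : 0 < m) (q : A → Bool) (w : List A) : List (QS A m) :=
  w.map (fun a => (a, (⟨0, hm⟩, !q a)))

open Classical in
/-- One step of the evaluation. -/
def Nx {A : Type} {m : ℕ} (q : A → Bool) (F : List (A × Fin m) → Prop) (c c' : List (QS A m)) :
    Prop :=
  ¬ AllMax c ∧ c' = stp q (decide (F (asg c))) c

end Pool.Agent.BookIm
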