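import Pool.Agent.BookIm.QDefs

/-!
# The steps of the evaluation are recognised by finite automata
-/

set_option autoImplicit false

namespace Pool.Agent.BookIm

open Pool.Agent.PT Pool.Agent.Book19 Relation

variable {A : Type} [Fintype A] {m : ℕ}

/-- The letter prescribed by a step at a position which the carry reaches. -/
private def lt1 (q : A → Bool) (X : Bool) (s : QS A m) : QS A m :=
  if h : s.2.1.1 + 1 < m then (s.1, (⟨s.2.1.1 + 1, h⟩, xn q X s))
  else (s.1, (⟨0, Nat.zero_lt_of_lt s.2.1.2⟩, !q s.1))

open Classical in
/-- The automaton for the step: the comparison so far, the carry, the value. -/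
private noncomputable def dst (q : A → Bool) (p : Bool × Bool × Bool) (x : QS A m × QS A m) :
    Bool × Bool × Bool :=
  if p.2.1 = true then
    (p.1 && decide (x.2 = lt1 q p.2.2 x.1), decide (¬ x.1.2.1.1 + 1 < m), xn q p.2.2 x.1)
  else (p.1 && decide (x.2 = x.1), false, p.2.2)

omit [Fintype A] in
private theorem dst_fold (q : A → Bool) (w : List (QS A m × QS A m)) :
    ∀ p : Bool × Bool × Bool, ((w.foldl (dst q) p).1 = true ↔ (p.1 = true ∧
      w.map Prod.snd = if p.2.1 = true then stp q p.2.2 (w.map Prod.fst) else w.map Prod.fst)) := by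
  classical
  induction w with
  | nil =>
    intro p
    by_cases h : p.2.1 = true <;> simp [stp]
  | cons x w ih =>
    intro p
    rw [List.foldl_cons, ih]
    obtain ⟨ok, ca, X⟩ := p
    obtain ⟨s, s'⟩ := x
    cases ca with
    | false => simp [dst, and_assoc]
    | true =>
      simp only [dst, if_true, List.map_cons, stp]
      by_cases h : s.2.1.1 + 1 < m
      · simp [lt1, h, and_assoc]
      · simp [lt1, h, and_assoc]

theorem dl_stp (q : A → Bool) (X : Bool) :
    InDLBA _ {w : List (QS A m × QS A m) | w.map Prod.snd = stp q X (w.map Prod.fst)} := by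
  refine (InDLBA.reg (Γ := QS A m × QS A m) ((true, true, X) : Bool × Bool × Bool) (dst q)
    (fun p => p.1 = true)).congr ?_
  intro w _
  simp only [Set.mem_ofPred_eq]
  rw [dst_fold]
  simp

theorem dl_fin (q : A → Bool) (X : Bool) :
    InDLBA _ {w : List (QS A m) | fin q X w = true} :=
  InDLBA.reg (Γ := QS A m) X (xn q) (fun p => p = true)

omit [Fintype A] in
private theorem all_fold (p : QS A m → Prop) [DecidablePred p] (w : List (QS A m)) :
    ∀ b : Bool, (w.foldl (fun (b : Bool) x => b && decide (p x)) b = true ↔
      (b = true ∧ ∀ x ∈ w, p x)) := by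
  induction w with
  | nil => intro b; simp
  | cons a w ih =>
    intro b
    rw [List.foldl_cons, ih]
    simp only [Bool.and_eq_true, decide_eq_true_eq, List.mem_cons, forall_eq_or_imp]
    tauto

theorem dl_allMax : InDLBA _ {w : List (QS A m) | AllMax w} := by
  classical
  refine (InDLBA.reg (Γ := QS A m) true
    (fun (b : Bool) (x : QS A m) => b && decide (x.2.1.1 + 1 = m)) (fun b => b = true)).congr ?_
  intro w _
  simp only [Set.mem_ofPred_eq]
  have h := all_fold (fun x : QS A m => x.2.1.1 + 1 = m) w true
  simp only [true_and] at h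
  rw [AllMax, ← h]

end Pool.Agent.BookIm
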