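import Pool.Agent.BookIm.QW

/-!
# The evaluation computes the quantified statement
-/

set_option autoImplicit false

namespace Pool.Agent.BookIm

open Pool.Agent.PT Pool.Agent.Book19 Relation

variable {A : Type} {m : ℕ}

theorem map_fst_stp (q : A → Bool) (X : Bool) (w : List (QS A m)) :
    (stp q X w).map Prod.fst = w.map Prod.fst := by
  induction w generalizing X with
  | nil => rfl
  | cons s w ih =>
    unfold stp
    split_ifs with h
    · simp
    · simp [ih]

private theorem stp_append_max (q : A → Bool) (hm : 0 < m) (X : Bool) (w : List (QS A m))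
    (hw : AllMax w) (v : List (QS A m)) :
    stp q X (w ++ v) = qini hm q (w.map Prod.fst) ++ stp q (fin q X w) v := by
  induction w generalizing X with
  | nil => rfl
  | cons s w ih =>
    have h1 : s.2.1.1 + 1 = m := hw s (by simp)
    have h2 : ¬ (s.2.1.1 + 1 < m) := by omega
    have h3 : AllMax w := fun t ht => hw t (by simp [ht])
    rw [List.cons_append, stp, dif_neg h2, ih _ h3]
    rfl

private theorem stp_append_not (q : A → Bool) (X : Bool) (w : List (QS A m))
    (hw : ¬ AllMax w) (v : List (QS A m)) : stp q X (w ++ v) = stp q X w ++ v := by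
  induction w generalizing X with
  | nil => exact absurd (fun t ht => absurd ht (by simp)) hw
  | cons s w ih =>
    rw [List.cons_append, stp, stp]
    split_ifs with h
    · rfl
    · have h3 : ¬ AllMax w := by
        intro h4
        apply hw
        intro t ht
        rcases List.mem_cons.1 ht with rfl | ht
        · have := t.2.1.2
          omega
        · exact h4 t ht
      rw [ih _ h3]
      rfl

private theorem nx_lift {q : A → Bool} {F : List (A × Fin m) → Prop} (s : QS A m)
    {c c' : List (QS A m)} (h : Nx q (fun u => F (u ++ [(s.1, s.2.1)])) c c') :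
    Nx q F (c ++ [s]) (c' ++ [s]) := by
  refine ⟨fun h1 => h.1 (fun t ht => h1 t (by simp [ht])), ?_⟩
  rw [stp_append_not q _ c h.1, h.2]
  congr 2
  simp [asg]

private theorem run_lift {q : A → Bool} {F : List (A × Fin m) → Prop} (s : QS A m)
    {c c' : List (QS A m)}
    (h : ReflTransGen (Nx q (fun u => F (u ++ [(s.1, s.2.1)]))) c c') :
    ReflTransGen (Nx q F) (c ++ [s]) (c' ++ [s]) := by
  induction h with
  | refl => exact ReflTransGen.refl
  | tail _ h2 ih => exact ih.tail (nx_lift s h2)

private theorem map_fst_run {q : A → Bool} {F : List (A × Fin m) → Prop}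
    {c c' : List (QS A m)} (h : ReflTransGen (Nx q F) c c') :
    c'.map Prod.fst = c.map Prod.fst := by
  induction h with
  | refl => rfl
  | tail _ h2 ih => rw [h2.2, map_fst_stp, ih]

private theorem map_fst_qini (hm : 0 < m) (q : A → Bool) (w : List A) :
    (qini hm q w).map Prod.fst = w := by
  simp [qini, Function.comp_def]

private theorem xn_iff (q : A → Bool) (a : A) (z : Fin m) (v Y : Bool) (G : Fin m → Prop) (k : ℕ)
    (hz : z.1 = k) (hv : v = true ↔ (if q a = true then ∃ z : Fin m, z.1 < k ∧ G z
      else ∀ z : Fin m, z.1 < k → G z)) (hY : Y = true ↔ G z) :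
    xn q Y (a, (z, v)) = true ↔ (if q a = true then ∃ z : Fin m, z.1 < k + 1 ∧ G z
      else ∀ z : Fin m, z.1 < k + 1 → G z) := by
  unfold xn
  simp only
  have key : ∀ y : Fin m, y.1 < k + 1 → y.1 < k ∨ y = z := by
    intro y hy
    rcases Nat.lt_succ_iff_lt_or_eq.1 hy with h | h
    · exact Or.inl h
    · exact Or.inr (Fin.ext (by omega))
  cases hq : q a with
  | true =>
    rw [hq] at hv
    simp only [if_true] at hv ⊢
    cases v with
    | true =>
      simp only [if_true, true_iff] at hv ⊢
      obtain ⟨y, hy, hG⟩ := hv
      exact ⟨y, by omega, hG⟩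
    | false =>
      simp only [Bool.false_eq_true, if_false, false_iff] at hv ⊢
      rw [hY]
      constructor
      · intro h
        exact ⟨z, by omega, h⟩
      · rintro ⟨y, hy, hG⟩
        rcases key y hy with h | rfl
        · exact absurd ⟨y, h, hG⟩ hv
        · exact hG
  | false =>
    rw [hq] at hv
    simp only [Bool.false_eq_true, if_false] at hv ⊢
    cases v with
    | false =>
      simp only [Bool.false_eq_true, if_true, false_iff] at hv ⊢
      intro h
      exact hv (fun y hy => h y (by omega))
    | true =>
      simp only [true_iff, Bool.true_eq_false, if_false] at hv ⊢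
      rw [hY]
      constructor
      · intro h y hy
        rcases key y hy with h' | rfl
        · exact hv y h'
        · exact h
      · intro h
        exact h z (by omega)

open Classical in
/-- The evaluation ends with the value of the quantified statement. -/
theorem exists_run (hm : 0 < m) (q : A → Bool) (w : List A) (F : List (A × Fin m) → Prop) :
    ∃ d, ReflTransGen (Nx q F) (qini hm q w) d ∧ AllMax d ∧
      (fin q (decide (F (asg d))) d = true ↔ QW q w F) := by
  induction w using List.reverseRecOn generalizing F with
  | nil =>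
    refine ⟨[], ReflTransGen.refl, fun s hs => absurd hs (by simp), ?_⟩
    simp [fin, asg, QW]
  | append_singleton w a ih =>
    let G : Fin m → Prop := fun z => QW q w (fun u => F (u ++ [(a, z)]))
    have hQ : QW q (w ++ [a]) F ↔ (if q a = true then ∃ z, G z else ∀ z, G z) := by
      rw [QW_append]
      rfl
    -- the run of the prefix
    have hrun : ∀ (z : Fin m) (v : Bool), ∃ d : List (QS A m),
        ReflTransGen (Nx q F) (qini hm q w ++ [(a, (z, v))]) (d ++ [(a, (z, v))]) ∧ AllMax d ∧
        d.map Prod.fst = w ∧
        (fin q (decide (F (asg (d ++ [(a, (z, v))])))) d = true ↔ G z) := by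
      intro z v
      obtain ⟨d, h1, h2, h3⟩ := ih (fun u => F (u ++ [(a, z)]))
      refine ⟨d, run_lift (a, (z, v)) h1, h2, ?_, ?_⟩
      · rw [map_fst_run h1, map_fst_qini]
      · have h4 : asg (d ++ [((a, (z, v)) : QS A m)]) = asg d ++ [(a, z)] := by simp [asg]
        rw [h4]
        exact h3
    have key : ∀ (k : ℕ) (hk : k < m), ∃ v : Bool,
        (v = true ↔ (if q a = true then ∃ z : Fin m, z.1 < k ∧ G z
          else ∀ z : Fin m, z.1 < k → G z)) ∧
        ReflTransGen (Nx q F) (qini hm q (w ++ [a])) (qini hm q w ++ [(a, (⟨k, hk⟩, v))]) := by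
      intro k
      induction k with
      | zero =>
        intro hk
        refine ⟨!q a, ?_, ?_⟩
        · cases hq : q a <;> simp
        · have : qini hm q (w ++ [a]) = qini hm q w ++ [(a, (⟨0, hk⟩, !q a))] := by
            simp [qini]
          rw [this]
      | succ k ihk =>
        intro hk
        obtain ⟨v, hv, hr⟩ := ihk (by omega)
        obtain ⟨d, h1, h2, h3, h4⟩ := hrun ⟨k, by omega⟩ v
        set Y := fin q (decide (F (asg (d ++ [((a, (⟨k, by omega⟩, v)) : QS A m)])))) d with hY
        refine ⟨xn q Y (a, (⟨k, by omega⟩, v)), xn_iff q a _ v Y G k rfl hv h4, ?_⟩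
        refine (hr.trans h1).tail ⟨?_, ?_⟩
        · intro h5
          have := h5 (a, (⟨k, by omega⟩, v)) (by simp)
          simp only at this
          omega
        · rw [stp_append_max q hm _ d h2, h3, ← hY, stp, dif_pos (by simpa using hk)]
    obtain ⟨v, hv, hr⟩ := key (m - 1) (by omega)
    obtain ⟨d, h1, h2, h3, h4⟩ := hrun ⟨m - 1, by omega⟩ v
    refine ⟨_, hr.trans h1, ?_, ?_⟩
    · intro s hs
      rcases List.mem_append.1 hs with hs | hs
      · exact h2 s hs
      · rw [List.mem_singleton.1 hs]
        simp only
        omega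
    · rw [hQ]
      have h5 := xn_iff q a ⟨m - 1, by omega⟩ v _ G (m - 1) rfl hv h4
      have h6 : ∀ (X : Bool) (s : QS A m), fin q X (d ++ [s]) = xn q (fin q X d) s := by
        intro X s
        simp [fin, List.foldl_append]
      rw [h6, h5]
      have h7 : m - 1 + 1 = m := by omega
      rw [h7]
      simp only [Fin.is_lt, true_and, forall_true_left]

end Pool.Agent.BookIm
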