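import Pool.Agent.BookIm.QDefs

/-!
# Blocks of quantifiers
-/

set_option autoImplicit false

namespace Pool.Agent.BookIm

open Pool.Agent.PT Pool.Agent.Book19 Relation

variable {A Z : Type}

theorem QW.congr (q : A → Bool) (w : List A) {F G : List (A × Z) → Prop}
    (h : ∀ u, u.map Prod.fst = w → (F u ↔ G u)) : QW q w F ↔ QW q w G := by
  induction w generalizing F G with
  | nil => exact h [] rfl
  | cons a w ih =>
    refine ih fun u hu => ?_
    have h1 : ∀ z, F ((a, z) :: u) ↔ G ((a, z) :: u) := fun z => h _ (by simp [hu])
    simp only [h1]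

theorem QW_append (q : A → Bool) (w w' : List A) (F : List (A × Z) → Prop) :
    QW q (w ++ w') F ↔ QW q w' (fun u' => QW q w (fun u => F (u ++ u'))) := by
  induction w generalizing F with
  | nil => exact Iff.rfl
  | cons a w ih =>
    change QW q (w ++ w') _ ↔ _
    rw [ih]
    exact Iff.rfl

/-- A block of existential quantifiers. -/
theorem QW_ex (q : A → Bool) (w : List A) (hw : ∀ a ∈ w, q a = true) (F : List (A × Z) → Prop) :
    QW q w F ↔ ∃ u, u.map Prod.fst = w ∧ F u := by
  induction w generalizing F with
  | nil =>
    constructor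
    · intro h
      exact ⟨[], rfl, h⟩
    · rintro ⟨u, hu, h⟩
      rw [List.map_eq_nil_iff] at hu
      subst hu
      exact h
  | cons a w ih =>
    change QW q w _ ↔ _
    rw [ih (fun b hb => hw b (by simp [hb]))]
    simp only [hw a (by simp), if_true]
    constructor
    · rintro ⟨u, hu, z, hz⟩
      exact ⟨(a, z) :: u, by simp [hu], hz⟩
    · rintro ⟨u, hu, h⟩
      cases u with
      | nil => simp at hu
      | cons y u =>
        obtain ⟨b, z⟩ := y
        simp only [List.map_cons, List.cons.injEq] at hu
        obtain ⟨rfl, hu⟩ := hu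
        exact ⟨u, hu, z, h⟩

/-- Quantifiers which do not matter. -/
theorem QW_const [Nonempty Z] (q : A → Bool) (w : List A) (P : Prop) :
    QW q w (fun _ : List (A × Z) => P) ↔ P := by
  induction w with
  | nil => exact Iff.rfl
  | cons a w ih =>
    change QW q w _ ↔ _
    have h1 : (fun _ : List (A × Z) => (if q a = true then ∃ _ : Z, P else ∀ _ : Z, P)) =
        fun _ => P := by
      funext u
      split_ifs <;> simp
    rw [h1]
    exact ih

/-- Relabelling the quantified letters. -/
theorem QW_equiv {Z' : Type} (e : Z' ≃ Z) (q : A → Bool) (w : List A) (F : List (A × Z) → Prop) :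
    QW q w F ↔ QW q w (fun u : List (A × Z') => F (u.map (fun x => (x.1, e x.2)))) := by
  induction w generalizing F with
  | nil => exact Iff.rfl
  | cons a w ih =>
    change QW q w _ ↔ QW q w _
    rw [ih]
    refine QW.congr q w fun u _ => ?_
    simp only [List.map_cons]
    split_ifs with h
    · exact (Equiv.exists_congr_left e.symm).trans (by simp)
    · exact (Equiv.forall_congr_left e.symm).trans (by simp)

end Pool.Agent.BookIm
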