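import Pool.Agent.BookIm.QRun
import Pool.Agent.BookIm.QReg

/-!
# Quantified words in deterministic linear space
-/

set_option autoImplicit false

namespace Pool.Agent.BookIm

open Pool.Agent.PT Pool.Agent.Book19 Relation

open Classical in
private theorem quant_iter {A : Type} {m : ℕ} (q : A → Bool) (F : List (A × Fin m) → Prop)
    {a d : List (QS A m)} (h : ReflTransGen (Nx q F) a d) :
    ∃ n, (fun c => stp q (decide (F (asg c))) c)^[n] a = d ∧
      ∀ s < n, ¬ AllMax ((fun c => stp q (decide (F (asg c))) c)^[s] a) := by
  induction h using ReflTransGen.head_induction_on with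
  | refl => exact ⟨0, rfl, by intro s hs; omega⟩
  | head h1 _ ih =>
    obtain ⟨n, h3, h4⟩ := ih
    obtain ⟨h5, h6⟩ := h1
    refine ⟨n + 1, ?_, ?_⟩
    · rw [Function.iterate_succ_apply, ← h6]
      exact h3
    · intro s hs
      rcases s with _ | s
      · exact h5
      · rw [Function.iterate_succ_apply, ← h6]
        exact h4 s (by omega)

/-- Quantifying all the letters of a track. -/
theorem InDLBA.quant {A Z : Type} [Fintype A] [Fintype Z] [Nonempty Z] (q : A → Bool)
    {V : Set (List (A × Z))} (hV : InDLBA _ V) : InDLBA A {w | QW q w (fun u => u ∈ V)} := by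
  classical
  set m := Fintype.card Z with hm
  have hm0 : 0 < m := Fintype.card_pos
  let e : Fin m ≃ Z := (Fintype.equivFin Z).symm
  let F : List (A × Fin m) → Prop := fun u => u.map (fun x => (x.1, e x.2)) ∈ V
  have hF : InDLBA _ {w : List (QS A m) | F (asg w)} := by
    refine (InDLBA.map (fun s : QS A m => (s.1, e s.2.1)) hV).congr ?_
    intro w _
    change (w.map _).map _ ∈ V ↔ w.map _ ∈ V
    rw [List.map_map]
    rfl
  have hF1 : InDLBA _ {w : List (QS A m × QS A m) | F (asg (w.map Prod.fst))} :=
    InDLBA.map Prod.fst hF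
  let R : Set (List (QS A m × QS A m)) :=
    {w | (F (asg (w.map Prod.fst)) ∧ w.map Prod.snd = stp q true (w.map Prod.fst)) ∨
      (¬ F (asg (w.map Prod.fst)) ∧ w.map Prod.snd = stp q false (w.map Prod.fst))}
  have hR : InDLBA _ R := (hF1.inter (dl_stp q true)).union (hF1.compl.inter (dl_stp q false))
  let K0 : Set (List (QS A m)) :=
    {w | (F (asg w) ∧ fin q true w = true) ∨ (¬ F (asg w) ∧ fin q false w = true)}
  have hK0 : InDLBA _ K0 := (hF.inter (dl_fin q true)).union (hF.compl.inter (dl_fin q false))
  obtain ⟨K, hK, hloop⟩ := InDLBA.loop hR (dl_allMax (A := A) (m := m)) hK0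
  refine (InDLBA.map (fun a : A => ((a, (⟨0, hm0⟩, !q a)) : QS A m)) hK).congr ?_
  intro w hw
  change QW q w (fun u => u ∈ V) ↔ qini hm0 q w ∈ K
  rw [QW_equiv e]
  obtain ⟨d, h1, h2, h3⟩ := exists_run hm0 q w F
  obtain ⟨n, h4, h5⟩ := quant_iter q F h1
  have hlen : ∀ s, ((fun c => stp q (decide (F (asg c))) c)^[s] (qini hm0 q w)).length =
      (qini hm0 q w).length := by
    intro s
    induction s with
    | zero => rfl
    | succ s ih =>
      rw [Function.iterate_succ_apply']
      have := congrArg List.length (map_fst_stp q (decide (F (asg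
        ((fun c => stp q (decide (F (asg c))) c)^[s] (qini hm0 q w)))))
        ((fun c => stp q (decide (F (asg c))) c)^[s] (qini hm0 q w)))
      simp only [List.length_map] at this
      rw [← ih]
      exact this
  have key := hloop (fun s => (fun c => stp q (decide (F (asg c))) c)^[s] (qini hm0 q w)) n
    (by
      intro h0
      apply hw
      have h6 : (qini hm0 q w) = [] := h0
      unfold qini at h6
      exact List.map_eq_nil_iff.1 h6)
    (fun s _ => hlen s) h5
    (by
      intro s _ u hu
      rw [Function.iterate_succ_apply', ← hu]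
      change ((F (asg (u.map Prod.fst)) ∧ u.map Prod.snd = stp q true (u.map Prod.fst)) ∨
        (¬ F (asg (u.map Prod.fst)) ∧ u.map Prod.snd = stp q false (u.map Prod.fst))) ↔ _
      by_cases hc : F (asg (u.map Prod.fst))
      · simp [hc]
      · simp [hc])
    (by
      change AllMax _
      rw [h4]
      exact h2)
  have key' : qini hm0 q w ∈ K ↔ d ∈ K0 := by
    have := key
    simp only [Function.iterate_zero, id] at this
    rw [h4] at this
    exact this
  rw [key']
  refine h3.symm.trans ?_
  change _ ↔ ((F (asg d) ∧ fin q true d = true) ∨ (¬ F (asg d) ∧ fin q false d = true))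
  by_cases hc : F (asg d)
  · simp [hc]
  · simp [hc]

end Pool.Agent.BookIm
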