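import Pool.Agent.BookIm.QW
import Pool.Agent.BookIm.Pad

/-!
# The quantified statement is reachability in at most `2 ^ K` steps
-/

set_option autoImplicit false

namespace Pool.Agent.BookIm

open Relation

section SGame

variable {S : Type} [Inhabited S]

private def sgE (m : ℕ) (u : List (SA S × SZ S)) (i : ℕ) : Bool :=
  ((u[m + i * (m + 1)]?).map (fun a => a.2.2)).getD true

private def sgM (m : ℕ) (u : List (SA S × SZ S)) (i : ℕ) : List S :=
  (List.range m).map (fun p => ((u[m + i * (m + 1) + 1 + p]?).map (fun a => a.2.1)).getD default)

private def sgChk (U : Set (List (S × S))) (x y : List S) : Prop := x = y ∨ x.zip y ∈ U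

omit [Inhabited S] in
private lemma sg_cur_congr {T : Type} {e e' : ℕ → Bool} {M M' : ℕ → T} (b : Bool) :
    ∀ (i : ℕ) (a : T), (∀ j < i, e j = e' j) → (∀ j < i, M j = M' j) →
      cur e M b i a = cur e' M' b i a
  | 0, a, _, _ => rfl
  | i + 1, a, h, h' => by
    simp only [cur]
    rw [h i (Nat.lt_succ_self i), h' i (Nat.lt_succ_self i)]
    exact sg_cur_congr b i _ (fun j hj => h j (Nat.lt_succ_of_lt hj))
      (fun j hj => h' j (Nat.lt_succ_of_lt hj))

private lemma sg_pos {m i j : ℕ} (hj : j < i) : m + j * (m + 1) + m < m + i * (m + 1) := by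
  have h1 : (j + 1) * (m + 1) ≤ i * (m + 1) := Nat.mul_le_mul_right _ hj
  have h2 : (j + 1) * (m + 1) = j * (m + 1) + m + 1 := by ring
  omega

omit [Inhabited S] in
private lemma sgE_append {m i : ℕ} (u v : List (SA S × SZ S)) (hu : u.length = m + i * (m + 1))
    {j : ℕ} (hj : j < i) : sgE m (u ++ v) j = sgE m u j := by
  unfold sgE
  rw [List.getElem?_append_left]
  have := sg_pos (m := m) hj
  omega

private lemma sgM_append {m i : ℕ} (u v : List (SA S × SZ S)) (hu : u.length = m + i * (m + 1))
    {j : ℕ} (hj : j < i) : sgM m (u ++ v) j = sgM m u j := by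
  unfold sgM
  apply List.map_congr_left
  intro p hp
  rw [List.mem_range] at hp
  rw [List.getElem?_append_left]
  have := sg_pos (m := m) hj
  omega

omit [Inhabited S] in
private lemma sgE_at {m i : ℕ} (u v : List (SA S × SZ S)) (x : SA S) (z : SZ S)
    (hu : u.length = m + i * (m + 1)) : sgE m (u ++ (x, z) :: v) i = z.2 := by
  unfold sgE
  rw [← hu, List.getElem?_append_right (le_refl _), Nat.sub_self]
  rfl

private lemma sgM_at {m i : ℕ} (u v : List (SA S × SZ S)) (x : SA S) (z : SZ S)
    (hu : u.length = m + i * (m + 1)) (hv : v.length = m) :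
    sgM m (u ++ (x, z) :: v) i = v.map (fun a => a.2.1) := by
  unfold sgM
  apply List.ext_getElem
  · simp [hv]
  · intro p h1 h2
    rw [List.length_map] at h2
    rw [List.getElem_map, List.getElem_range, ← hu, List.getElem?_append_right (by omega)]
    have e : u.length + 1 + p - u.length = p + 1 := by omega
    rw [e, List.getElem?_cons_succ, List.getElem?_eq_getElem h2, List.getElem_map]
    rfl

private lemma sg_mkq_false (m i : ℕ) : mkq m (m + i * (m + 1)) = false := by
  simp [mkq]

private lemma sg_mkq_true {m i p : ℕ} (hp : p < m) : mkq m (m + i * (m + 1) + 1 + p) = true := by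
  have h1 : m + i * (m + 1) + 1 + p - m = (1 + p) + (m + 1) * i := by
    have : m + i * (m + 1) + 1 + p = m + ((1 + p) + (m + 1) * i) := by ring
    rw [this, Nat.add_sub_cancel_left]
  have h2 : (m + i * (m + 1) + 1 + p - m) % (m + 1) = 1 + p := by
    rw [h1, Nat.add_mul_mod_self_left, Nat.mod_eq_of_lt (by omega)]
  simp only [mkq, h2]
  simp

/-- the marks of a word -/
private def sgGood (m : ℕ) (W : List (SA S)) : Prop := ∀ p x, W[p]? = some x → x.2 = mkq m p

private theorem sg_main (U : Set (List (S × S))) (m : ℕ) : ∀ (i : ℕ) (W : List (SA S)),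
    W.length = m + i * (m + 1) → sgGood m W → ∀ c d : List S, c.length = m → d.length = m →
      (QW Prod.snd W (fun u : List (SA S × SZ S) =>
        sgChk U (cur (sgE m u) (sgM m u) true i c) (cur (sgE m u) (sgM m u) false i d)) ↔
          RK (EL U) m i c d) := by
  intro i
  induction i with
  | zero =>
    intro W _ _ c d hc hd
    simp only [cur]
    rw [QW_const]
    simp only [RK, EL, sgChk]
    rw [hc, hd]
    simp
  | succ i ih =>
    intro W hW hG c d hc hd
    have hlen : (i + 1) * (m + 1) = i * (m + 1) + (m + 1) := by ring
    obtain ⟨W₁, x₀, W₂, rfl, hW₁, hW₂⟩ : ∃ (W₁ : List (SA S)) (x₀ : SA S) (W₂ : List (SA S)),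
        W = W₁ ++ x₀ :: W₂ ∧ W₁.length = m + i * (m + 1) ∧ W₂.length = m := by
      have h1 : (W.drop (m + i * (m + 1))).length = m + 1 := by
        rw [List.length_drop, hW, hlen]
        omega
      rcases hd' : W.drop (m + i * (m + 1)) with _ | ⟨x₀, W₂⟩
      · rw [hd'] at h1
        simp at h1
      · refine ⟨W.take (m + i * (m + 1)), x₀, W₂, ?_, ?_, ?_⟩
        · rw [← hd', List.take_append_drop]
        · rw [List.length_take, hW, hlen]
          omega
        · rw [hd', List.length_cons] at h1
          omega
    have hG₁ : sgGood m W₁ := by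
      intro p x hx
      apply hG p x
      have hp : p < W₁.length := by
        by_contra hcon
        rw [List.getElem?_eq_none (by omega)] at hx
        exact absurd hx (by simp)
      rw [List.getElem?_append_left hp]
      exact hx
    have hx₀ : x₀.2 = false := by
      rw [← sg_mkq_false m i]
      apply hG
      rw [← hW₁, List.getElem?_append_right (le_refl _), Nat.sub_self]
      rfl
    have hW₂t : ∀ x ∈ W₂, x.2 = true := by
      intro x hx
      obtain ⟨p, hp, hpx⟩ := List.mem_iff_getElem.mp hx
      rw [← sg_mkq_true (m := m) (i := i) (p := p) (by omega)]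
      apply hG
      rw [← hW₁, List.getElem?_append_right (by omega)]
      have e : W₁.length + 1 + p - W₁.length = p + 1 := by omega
      rw [e, List.getElem?_cons_succ, List.getElem?_eq_getElem hp, hpx]
    rw [QW_append]
    -- the block
    have hstep : ∀ (z : SZ S) (u₂ : List (SA S × SZ S)), u₂.length = m →
        (QW Prod.snd W₁ (fun u₁ : List (SA S × SZ S) =>
          sgChk U (cur (sgE m (u₁ ++ (x₀, z) :: u₂)) (sgM m (u₁ ++ (x₀, z) :: u₂)) true (i + 1) c)
            (cur (sgE m (u₁ ++ (x₀, z) :: u₂)) (sgM m (u₁ ++ (x₀, z) :: u₂)) false (i + 1) d)) ↔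
          RK (EL U) m i (if z.2 = true then u₂.map (fun a => a.2.1) else c)
            (if z.2 = false then u₂.map (fun a => a.2.1) else d)) := by
      intro z u₂ hu₂
      rw [← ih W₁ hW₁ hG₁]
      · apply QW.congr
        intro u₁ hu₁
        have hl : u₁.length = m + i * (m + 1) := by
          rw [← hW₁, ← hu₁, List.length_map]
        simp only [cur]
        rw [sgE_at u₁ u₂ x₀ z hl, sgM_at u₁ u₂ x₀ z hl hu₂]
        rw [sg_cur_congr true i _ (fun j hj => sgE_append u₁ _ hl hj)
            (fun j hj => sgM_append u₁ _ hl hj),
          sg_cur_congr false i _ (fun j hj => sgE_append u₁ _ hl hj)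
            (fun j hj => sgM_append u₁ _ hl hj)]
      · split_ifs
        · rw [List.length_map, hu₂]
        · exact hc
      · split_ifs
        · rw [List.length_map, hu₂]
        · exact hd
    show QW Prod.snd W₂ (fun u₂ => if x₀.2 = true then _ else _) ↔ _
    rw [QW_ex _ _ hW₂t]
    simp only [hx₀]
    constructor
    · rintro ⟨u₂, hu₂, h⟩
      have hu₂l : u₂.length = m := by rw [← hW₂, ← hu₂, List.length_map]
      rw [if_neg (by simp)] at h
      refine ⟨u₂.map (fun a => a.2.1), by rw [List.length_map, hu₂l], ?_, ?_⟩
      · have h1 := (hstep (default, false) u₂ hu₂l).mp (h (default, false))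
        simpa using h1
      · have h1 := (hstep (default, true) u₂ hu₂l).mp (h (default, true))
        simpa using h1
    · rintro ⟨c', hc', h1, h2⟩
      have hu₂l : (List.zipWith (fun x s => ((x, (s, true)) : SA S × SZ S)) W₂ c').length = m := by
        rw [List.length_zipWith, hW₂, hc', Nat.min_self]
      have hmap : (List.zipWith (fun x s => ((x, (s, true)) : SA S × SZ S)) W₂ c').map
          (fun a => a.2.1) = c' := by
        apply List.ext_getElem
        · rw [List.length_map, hu₂l, hc']
        · intro p h3 h4
          simp
      refine ⟨List.zipWith (fun x s => ((x, (s, true)) : SA S × SZ S)) W₂ c', ?_, ?_⟩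
      · apply List.ext_getElem
        · rw [List.length_map, hu₂l, hW₂]
        · intro p h3 h4
          simp
      · rw [if_neg (by simp)]
        intro z
        refine (hstep z _ hu₂l).mpr ?_
        rw [hmap]
        cases z.2
        · simpa using h1
        · simpa using h2

omit [Inhabited S] in
private lemma sg_mkd (a b : List S) (hab : a.length = b.length) (w : List (Option (S × S)))
    (hw : a.length ≤ w.length) (h : w = pd w.length (a.zip b)) :
    mkd w = (List.range w.length).map (fun p => ((a.zip b)[p]?, mkq a.length p)) := by
  have hz : (a.zip b).length = a.length := by rw [List.length_zip, ← hab, Nat.min_self]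
  have hn : nS w = a.length := by
    rw [h, nS_pd _ _ (by rw [hz]; exact hw), hz]
  unfold mkd
  apply List.map_congr_left
  intro p hp
  rw [List.mem_range] at hp
  rw [hn]
  congr 1
  rw [h, getElem?_pd, if_pos hp]
  rfl

omit [Inhabited S] in
private lemma sg_mU (a b : List S) (hab : a.length = b.length) (w : List (Option (S × S)))
    (hw : a.length ≤ w.length) (h : w = pd w.length (a.zip b)) (v : List (SA S × SZ S))
    (hv : v.map Prod.fst = mkd w) : mU v = a.length := by
  have hz : (a.zip b).length = a.length := by rw [List.length_zip, ← hab, Nat.min_self]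
  have hn : nS w = a.length := by
    rw [h, nS_pd _ _ (by rw [hz]; exact hw), hz]
  have h1 : (v.map Prod.fst).map Prod.fst = w := by
    rw [hv, sg_mkd a b hab w hw h, List.map_map]
    conv_rhs => rw [h]
    rfl
  unfold mU
  have h2 : v.countP (fun a => a.1.1.isSome) = ((v.map Prod.fst).map Prod.fst).countP
      Option.isSome := by
    rw [List.countP_map, List.countP_map]
    rfl
  rw [h2, h1]
  exact hn

private lemma sg_base (a b : List S) (hab : a.length = b.length) (w : List (Option (S × S)))
    (hw : a.length ≤ w.length) (h : w = pd w.length (a.zip b)) (v : List (SA S × SZ S))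
    (hv : v.map Prod.fst = mkd w) : baseU v true = a ∧ baseU v false = b := by
  have hvl : v.length = w.length := by
    have := congrArg List.length hv
    rw [List.length_map, sg_mkd a b hab w hw h, List.length_map, List.length_range] at this
    exact this
  have hget : ∀ p, (hp : p < a.length) → (v[p]?).bind (fun x => x.1.1) =
      some (a[p], b[p]'(hab ▸ hp)) := by
    intro p hp
    have h1 : (v.map Prod.fst)[p]? = some ((a.zip b)[p]?, mkq a.length p) := by
      rw [hv, sg_mkd a b hab w hw h, List.getElem?_map, List.getElem?_range (by omega)]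
      rfl
    rw [List.getElem?_map, List.getElem?_eq_getElem (by omega)] at h1
    rw [List.getElem?_eq_getElem (by omega)]
    have h2 : (v[p]'(by omega)).1 = ((a.zip b)[p]?, mkq a.length p) := by simpa using h1
    rw [Option.bind_some, h2]
    have hz : p < (a.zip b).length := by rw [List.length_zip, ← hab, Nat.min_self]; exact hp
    rw [List.getElem?_eq_getElem hz, List.getElem_zip]
  have hm := sg_mU a b hab w hw h v hv
  constructor
  · apply List.ext_getElem
    · rw [baseU, List.length_map, List.length_range, hm]
    · intro p h1 h2
      simp only [baseU, List.getElem_map, List.getElem_range, baseL]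
      rw [hget p h2]
      rfl
  · apply List.ext_getElem
    · rw [baseU, List.length_map, List.length_range, hm, hab]
    · intro p h1 h2
      simp only [baseU, List.getElem_map, List.getElem_range, baseL]
      rw [hget p (by omega)]
      rfl

end SGame

theorem qw_iff {S : Type} [Inhabited S] (U : Set (List (S × S))) (a b : List S)
    (hab : a.length = b.length) (w : List (Option (S × S))) (hw : a.length ≤ w.length)
    (h : w = pd w.length (a.zip b)) :
    QW Prod.snd (mkd w) (fun u : List (SA S × SZ S) => SMat u U) ↔
      RK (EL U) a.length (KN w.length a.length) a b := by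
  set m := a.length with hm
  set K := KN w.length m with hK
  have hKle : m + K * (m + 1) ≤ w.length := by
    have : K * (m + 1) ≤ w.length - m := Nat.div_mul_le_self _ _
    omega
  have hmk := sg_mkd a b hab w hw h
  have hml : (mkd w).length = w.length := by
    rw [hmk, List.length_map, List.length_range]
  have hW₁ : ((mkd w).take (m + K * (m + 1))).length = m + K * (m + 1) := by
    rw [List.length_take, hml]
    omega
  have hG : sgGood m ((mkd w).take (m + K * (m + 1))) := by
    intro p x hx
    have hp : p < m + K * (m + 1) := by
      by_contra hcon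
      rw [List.getElem?_eq_none (by omega)] at hx
      exact absurd hx (by simp)
    rw [List.getElem?_take_of_lt hp, hmk, List.getElem?_map, List.getElem?_range (by omega)] at hx
    simp only [Option.map_some, Option.some.injEq] at hx
    rw [← hx]
  rw [← List.take_append_drop (m + K * (m + 1)) (mkd w), QW_append]
  have hmain := sg_main U m K _ hW₁ hG a b hm.symm (by rw [← hab])
  have hinner : ∀ u' : List (SA S × SZ S), u'.map Prod.fst = (mkd w).drop (m + K * (m + 1)) →
      (QW Prod.snd ((mkd w).take (m + K * (m + 1))) (fun u : List (SA S × SZ S) =>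
        SMat (u ++ u') U) ↔ RK (EL U) m K a b) := by
    intro u' hu'
    rw [← hmain]
    apply QW.congr
    intro u hu
    have hv : (u ++ u').map Prod.fst = mkd w := by
      rw [List.map_append, hu, hu', List.take_append_drop]
    have hul : u.length = m + K * (m + 1) := by
      rw [← hW₁, ← hu, List.length_map]
    have hvl : (u ++ u').length = w.length := by
      rw [← hml, ← hv, List.length_map]
    have h1 : mU (u ++ u') = m := sg_mU a b hab w hw h _ hv
    obtain ⟨h2, h3⟩ := sg_base a b hab w hw h _ hv
    have h4 : KU (u ++ u') = K := by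
      unfold KU
      rw [h1, hvl]
    have h5 : ∀ j < K, ebU (u ++ u') j = sgE m u j := by
      intro j hj
      rw [← sgE_append u u' hul hj, ← h1]
      rfl
    have h6 : ∀ j < K, midU (u ++ u') j = sgM m u j := by
      intro j hj
      rw [← sgM_append u u' hul hj, ← h1]
      rfl
    have h7 : curU (u ++ u') true = cur (sgE m u) (sgM m u) true K a := by
      unfold curU
      rw [h4, h2]
      exact sg_cur_congr true K a h5 h6
    have h8 : curU (u ++ u') false = cur (sgE m u) (sgM m u) false K b := by
      unfold curU
      rw [h4, h3]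
      exact sg_cur_congr false K b h5 h6
    unfold SMat sgChk
    rw [h7, h8]
  rw [QW.congr _ _ hinner, QW_const]

end Pool.Agent.BookIm
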