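import Pool.Agent.BookIm.SDefs

/-!
# Reachability in at most `2 ^ K` steps
-/

set_option autoImplicit false

namespace Pool.Agent.BookIm

open Relation

/-- `b` is reached from `a` in at most `n` steps -/
private def PS {S : Type} (E : List S → List S → Prop) : ℕ → List S → List S → Prop
  | 0, a, b => a = b
  | n + 1, a, b => PS E n a b ∨ ∃ c, PS E n a c ∧ E c b

private lemma PS.rtg {S : Type} {E : List S → List S → Prop} {n : ℕ} {a b : List S}
    (h : PS E n a b) : ReflTransGen E a b := by
  induction n generalizing b with
  | zero => cases h; exact ReflTransGen.refl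
  | succ n ih =>
    rcases h with h | ⟨c, h, hc⟩
    · exact ih h
    · exact (ih h).tail hc

private lemma PS.mono {S : Type} {E : List S → List S → Prop} {n k : ℕ} (hnk : n ≤ k)
    {a b : List S} (h : PS E n a b) : PS E k a b := by
  induction k, hnk using Nat.le_induction with
  | base => exact h
  | succ k _ ih => exact Or.inl ih

private lemma PS.add {S : Type} {E : List S → List S → Prop} {n k : ℕ} {a c b : List S}
    (h : PS E n a c) (h' : PS E k c b) : PS E (n + k) a b := by
  induction k generalizing b with
  | zero => cases h'; exact h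
  | succ k ih =>
    rcases h' with h' | ⟨d, h', hd⟩
    · exact Or.inl (ih h')
    · exact Or.inr ⟨d, ih h', hd⟩

private lemma PS.split {S : Type} {E : List S → List S → Prop} {n k : ℕ} {a b : List S}
    (h : PS E (n + k) a b) : ∃ c, PS E n a c ∧ PS E k c b := by
  induction k generalizing b with
  | zero => exact ⟨b, h, rfl⟩
  | succ k ih =>
    rcases h with h | ⟨d, h, hd⟩
    · obtain ⟨c, h1, h2⟩ := ih h
      exact ⟨c, h1, Or.inl h2⟩
    · obtain ⟨c, h1, h2⟩ := ih h
      exact ⟨c, h1, Or.inr ⟨d, h2, hd⟩⟩

private lemma rtg_length {S : Type} {E : List S → List S → Prop}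
    (hE : ∀ a b, E a b → b.length = a.length) {a b : List S} (h : ReflTransGen E a b) :
    b.length = a.length := by
  induction h with
  | refl => rfl
  | tail _ h ih => rw [hE _ _ h, ih]

private lemma rk_iff_ps {S : Type} {E : List S → List S → Prop} {m K : ℕ}
    (hE : ∀ a b, E a b → b.length = a.length) {a b : List S} (ha : a.length = m) :
    RK E m K a b ↔ PS E (2 ^ K) a b := by
  induction K generalizing a b with
  | zero =>
    constructor
    · rintro (h | h)
      · exact Or.inl h
      · exact Or.inr ⟨a, rfl, h⟩
    · rintro (h | ⟨c, h, hc⟩)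
      · exact Or.inl h
      · cases h
        exact Or.inr hc
  | succ K ih =>
    have h2 : 2 ^ (K + 1) = 2 ^ K + 2 ^ K := by rw [pow_succ, mul_two]
    rw [h2]
    constructor
    · rintro ⟨c, hc, h, h'⟩
      exact PS.add ((ih ha).1 h) ((ih hc).1 h')
    · intro h
      obtain ⟨c, h1, h2⟩ := h.split
      have hc : c.length = m := (rtg_length hE h1.rtg).trans ha
      exact ⟨c, hc, (ih ha).2 h1, (ih hc).2 h2⟩

private lemma ps_of_rtg {S : Type} [Fintype S] {E : List S → List S → Prop} {m : ℕ}
    (hE : ∀ a b, E a b → b.length = a.length) {a b : List S} (ha : a.length = m)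
    (h : ReflTransGen E a b) : PS E (Fintype.card S ^ m) a b := by
  classical
  let R : ℕ → Set (List S) := fun n => {c | PS E n a c}
  have hsub : ∀ n, R n ⊆ {l : List S | l.length = m} := fun n c hc =>
    (rtg_length hE (PS.rtg hc)).trans ha
  have hfin : {l : List S | l.length = m}.Finite := List.finite_length_eq S m
  have hcard : {l : List S | l.length = m}.ncard = Fintype.card S ^ m := by
    rw [← card_vector (α := S) m, ← Nat.card_eq_fintype_card, ← Nat.card_coe_set_eq]
    rfl
  have hmono : ∀ n, R n ⊆ R (n + 1) := fun n c hc => Or.inl hc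
  have hstrict : ∀ n, (∀ i, i < n → R i ≠ R (i + 1)) → n + 1 ≤ (R n).ncard := by
    intro n
    induction n with
    | zero =>
      intro _
      have h0 : R 0 = {a} := by
        ext c
        constructor
        · intro hc
          exact (show a = c from hc).symm
        · intro hc
          exact (show c = a from hc).symm
      rw [h0, Set.ncard_singleton]
    | succ n ih =>
      intro hi
      have h1 := ih fun i hin => hi i (by omega)
      have h2 : R n ⊂ R (n + 1) := lt_of_le_of_ne (hmono n) (hi n (by omega))
      have h3 := Set.ncard_lt_ncard h2 (hfin.subset (hsub _))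
      omega
  have hex : ∃ n, n < Fintype.card S ^ m ∧ R n = R (n + 1) := by
    by_contra hcon
    push Not at hcon
    have h1 := hstrict (Fintype.card S ^ m) fun i hi => hcon i hi
    have h2 := Set.ncard_le_ncard (hsub (Fintype.card S ^ m)) hfin
    omega
  obtain ⟨n, hn, hR⟩ := hex
  have hall : ∀ c, ReflTransGen E a c → c ∈ R n := by
    intro c hc
    induction hc with
    | refl => exact PS.mono (Nat.zero_le n) (rfl : PS E 0 a a)
    | tail _ hd ih =>
      rw [hR]
      exact Or.inr ⟨_, ih, hd⟩
  exact PS.mono hn.le (hall b h)

/-- If `2 ^ K` is at least the number of words, reachability is reachability in at most `2 ^ K`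
steps. -/
theorem rk_iff {S : Type} [Fintype S] {E : List S → List S → Prop} {m K : ℕ}
    (hE : ∀ a b, E a b → b.length = a.length) (hK : Fintype.card S ^ m ≤ 2 ^ K) {a b : List S}
    (ha : a.length = m) : RK E m K a b ↔ ReflTransGen E a b := by
  rw [rk_iff_ps hE ha]
  exact ⟨PS.rtg, fun h => PS.mono hK (ps_of_rtg hE ha h)⟩

end Pool.Agent.BookIm
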