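import Pool.Agent.BookIm.SDefs
import Pool.Agent.BookIm.WSub

/-!
# The matrix is in the term calculus
-/

set_option autoImplicit false

namespace Pool.Agent.BookIm

open Pool.Agent.PT Pool.Agent.Book19

section

private theorem sup_cur_iff {T : Type} (e : ℕ → Bool) (M : ℕ → T) (b : Bool) (s : T) :
    ∀ (K : ℕ) (a : T), cur e M b K a = s ↔
      (∃ i, i < K ∧ (e i = b ∧ (∀ j, j < i → ¬ e j = b)) ∧ M i = s) ∨
        ((∀ i, i < K → ¬ e i = b) ∧ a = s)
  | 0, a => by simp [cur]
  | K + 1, a => by
    rw [cur, sup_cur_iff e M b s K]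
    constructor
    · rintro (⟨i, hi, h1, h2⟩ | ⟨h1, h2⟩)
      · exact Or.inl ⟨i, by omega, h1, h2⟩
      · by_cases h3 : e K = b
        · rw [if_pos h3] at h2
          exact Or.inl ⟨K, by omega, ⟨h3, h1⟩, h2⟩
        · rw [if_neg h3] at h2
          refine Or.inr ⟨fun i hi => ?_, h2⟩
          rcases Nat.lt_succ_iff_lt_or_eq.1 hi with h4 | h4
          · exact h1 i h4
          · rw [h4]; exact h3
    · rintro (⟨i, hi, h1, h2⟩ | ⟨h1, h2⟩)
      · rcases Nat.lt_succ_iff_lt_or_eq.1 hi with h4 | h4
        · exact Or.inl ⟨i, h4, h1, h2⟩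
        · subst h4
          refine Or.inr ⟨h1.2, ?_⟩
          rw [if_pos h1.1]
          exact h2
      · refine Or.inr ⟨fun i hi => h1 i (by omega), ?_⟩
        rw [if_neg (h1 K (by omega))]
        exact h2

private theorem sup_cur_map {T : Type} (e : ℕ → Bool) (L : ℕ → ℕ → T) (b : Bool) (m : ℕ) :
    ∀ (K : ℕ) (a : ℕ → T), cur e (fun i => (List.range m).map (L i)) b K ((List.range m).map a) =
      (List.range m).map (fun p => cur e (fun i => L i p) b K (a p))
  | 0, a => rfl
  | K + 1, a => by
    have h := sup_cur_map e L b m K (fun p => if e K = b then L K p else a p)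
    rw [cur]
    simp only [cur]
    rw [← h]
    congr 1
    split_ifs <;> rfl

variable {S : Type} [Fintype S] [Inhabited S]

/-- The letters of the ends of the interval. -/
private def sup_curL (u : List (SA S × SZ S)) (b : Bool) (p : ℕ) : S :=
  cur (ebU u) (fun i => midL u i p) b (KU u) (baseL u b p)

omit [Fintype S] in
private theorem sup_curU (u : List (SA S × SZ S)) (b : Bool) :
    curU u b = (List.range (mU u)).map (sup_curL u b) := by
  unfold curU baseU
  have : midU u = fun i => (List.range (mU u)).map (midL u i) := rfl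
  rw [this, sup_cur_map]
  rfl

private theorem sup_getD {B α : Type} [Fintype B] (g : B → Option α) (d s : α)
    {f : List B → (ℕ → ℕ) → ℕ} (hf : UF f) :
    UP (fun (x : List B) e => ((x[f x e]?).bind g).getD d = s) := by
  refine ((UP.getEq g (some s) hf).or ((UP.getEq g none hf).and (UP.const (d = s)))).congr
    fun x e => ?_
  cases (x[f x e]?).bind g with
  | none => simp
  | some a => simp

omit [Inhabited S] in
private theorem sup_mU : UF (fun (u : List (SA S × SZ S)) _ => mU u) := UF.countP _

omit [Inhabited S] in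
private theorem sup_KU : UF (fun (u : List (SA S × SZ S)) _ => KU u) := by
  exact (UF.len.sub sup_mU).div (sup_mU.add (UF.const 1))

omit [Inhabited S] in
private theorem sup_eb (b : Bool) {f : List (SA S × SZ S) → (ℕ → ℕ) → ℕ} (hf : UF f) :
    UP (fun u e => ebU u (f u e) = b) := by
  refine (sup_getD (fun a : SA S × SZ S => some a.2.2) true b
    (f := fun u e => mU u + f u e * (mU u + 1)) (sup_mU.add (hf.mul (sup_mU.add
      (UF.const 1))))).congr fun u e => ?_
  unfold ebU
  rw [Option.map_eq_bind]
  rfl

private theorem sup_mid (s : S) {f g : List (SA S × SZ S) → (ℕ → ℕ) → ℕ} (hf : UF f)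
    (hg : UF g) : UP (fun u e => midL u (f u e) (g u e) = s) := by
  refine (sup_getD (fun a : SA S × SZ S => some a.2.1) default s
    (f := fun u e => mU u + f u e * (mU u + 1) + 1 + g u e) (((sup_mU.add (hf.mul (sup_mU.add
      (UF.const 1)))).add (UF.const 1)).add hg)).congr fun u e => ?_
  unfold midL
  rw [Option.map_eq_bind]
  rfl

private theorem sup_base (b : Bool) (s : S) {f : List (SA S × SZ S) → (ℕ → ℕ) → ℕ} (hf : UF f) :
    UP (fun u e => baseL u b (f u e) = s) := by
  refine (sup_getD (fun a : SA S × SZ S => a.1.1.map (fun x => if b = true then x.1 else x.2))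
    default s hf).congr fun u e => ?_
  unfold baseL
  rw [Option.map_bind]
  rfl

private theorem sup_curL_up (b : Bool) (s : S) :
    UP (fun (u : List (SA S × SZ S)) e => sup_curL u b (e 0) = s) := by
  have h1 : UP (fun (u : List (SA S × SZ S)) e =>
      ∀ j, j < e 0 → ¬ ebU u j = b) :=
    UP.ball (P := fun u e j => ¬ ebU u j = b) (UF.var 0) (sup_eb b (UF.var 0)).not
  have h2 : UP (fun (u : List (SA S × SZ S)) e =>
      ∃ i, i < KU u ∧ ((ebU u i = b ∧ (∀ j, j < i → ¬ ebU u j = b)) ∧ midL u i (e 0) = s)) :=
    UP.bex (P := fun u e i => (ebU u i = b ∧ (∀ j, j < i → ¬ ebU u j = b)) ∧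
      midL u i (e 0) = s) sup_KU
      (((sup_eb b (UF.var 0)).and h1).and (sup_mid s (UF.var 0) (UF.var 1)))
  have h3 : UP (fun (u : List (SA S × SZ S)) e =>
      (∀ i, i < KU u → ¬ ebU u i = b) ∧ baseL u b (e 0) = s) :=
    (UP.ball (P := fun u e i => ¬ ebU u i = b) sup_KU (sup_eb b (UF.var 0)).not).and
      (sup_base b s (UF.var 0))
  refine (h2.or h3).congr fun u e => ?_
  unfold sup_curL
  rw [sup_cur_iff]

end

theorem up_SMat {S : Type} [Fintype S] [Inhabited S] {U : Set (List (S × S))}
    (hU : UP (fun x _ => x ∈ U)) : UP (fun (u : List (SA S × SZ S)) _ => SMat u U) := by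
  have h1 : UP (fun (u : List (SA S × SZ S)) _ =>
      ∀ p, p < mU u → ∃ s : S, sup_curL u true p = s ∧ sup_curL u false p = s) :=
    UP.ball (P := fun u _ p => ∃ s : S, sup_curL u true p = s ∧ sup_curL u false p = s) sup_mU
      (UP.fex fun s => (sup_curL_up true s).and (sup_curL_up false s))
  have h2 : UP (fun (u : List (SA S × SZ S)) (e : ℕ → ℕ) =>
      (List.range (mU u)).map (fun p => (sup_curL u true p, sup_curL u false p)) ∈ U) :=
    UP.wsub hU (lt := fun u _ p => (sup_curL u true p, sup_curL u false p)) sup_mU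
      (fun a => ((sup_curL_up true a.1).and (sup_curL_up false a.2)).congr fun u e => by
        rw [Prod.ext_iff]) (G := fun _ _ _ => 0) (fun _ => UF.const 0)
  refine (h1.or h2).congr fun u e => ?_
  unfold SMat
  rw [sup_curU, sup_curU]
  refine or_congr ?_ ?_
  · rw [List.map_inj_left]
    simp only [List.mem_range]
    constructor
    · intro h p hp
      obtain ⟨s, h3, h4⟩ := h p hp
      rw [h3, h4]
    · intro h p hp
      exact ⟨_, rfl, (h p hp).symm⟩
  · rw [List.zip_map']

/-- The marks of the quantifiers. -/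
theorem up_mkd {S : Type} [Fintype S] :
    UP (fun (u : List (Option (S × S) × Bool)) _ => u = mkd (u.map Prod.fst)) := by
  have hm : UF (fun (u : List (Option (S × S) × Bool)) _ => u.countP (fun a => a.1.isSome)) :=
    UF.countP _
  have h1 : UP (fun (u : List (Option (S × S) × Bool)) e =>
      u.countP (fun a => a.1.isSome) ≤ e 0 ∧
        (e 0 - u.countP (fun a => a.1.isSome)) % (u.countP (fun a => a.1.isSome) + 1) = 0) :=
    (UP.le hm (UF.var 0)).and (UP.eq (((UF.var 0).sub hm).mod (hm.add (UF.const 1)))
      (UF.const 0))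
  have h2 : UP (fun (u : List (Option (S × S) × Bool)) _ =>
      ∀ p, p < u.length → ∃ a, u[p]? = some a ∧ (a.2 = true ↔
        ¬ (u.countP (fun a => a.1.isSome) ≤ p ∧
        (p - u.countP (fun a => a.1.isSome)) % (u.countP (fun a => a.1.isSome) + 1) = 0))) :=
    UP.ball (P := fun u _ p => ∃ a : Option (S × S) × Bool, u[p]? = some a ∧ (a.2 = true ↔
        ¬ (u.countP (fun a => a.1.isSome) ≤ p ∧
        (p - u.countP (fun a => a.1.isSome)) % (u.countP (fun a => a.1.isSome) + 1) = 0)))
      UF.len (UP.fex fun a => (UP.sym a (UF.var 0)).and ((UP.const _).iff h1.not))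
  refine h2.congr fun u e => ?_
  have hnS : nS (u.map Prod.fst) = u.countP (fun a => a.1.isSome) := by
    unfold nS
    rw [List.countP_map]
    rfl
  have hlet : ∀ (p : ℕ) (a : Option (S × S) × Bool), u[p]? = some a →
      (a = (((u.map Prod.fst)[p]?).join, mkq (nS (u.map Prod.fst)) p) ↔ (a.2 = true ↔
        ¬ (u.countP (fun a => a.1.isSome) ≤ p ∧
        (p - u.countP (fun a => a.1.isSome)) % (u.countP (fun a => a.1.isSome) + 1) = 0))) := by
    intro p a ha
    rw [List.getElem?_map, ha, hnS, Prod.ext_iff]
    simp only [Option.map_some, Option.join_some, true_and]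
    unfold mkq
    rw [Bool.eq_iff_iff, Bool.not_eq_true', decide_eq_false_iff_not]
  constructor
  · intro h
    apply List.ext_getElem?
    intro p
    by_cases hp : p < u.length
    · obtain ⟨a, ha, h3⟩ := h p hp
      have h4 := (hlet p a ha).2 h3
      unfold mkd
      rw [List.getElem?_map, List.getElem?_range (by simpa using hp), Option.map_some, ha]
      exact congrArg some h4
    · unfold mkd
      rw [List.getElem?_eq_none (by simpa using hp), List.getElem?_eq_none (by simpa using hp)]
  · intro h p hp
    refine ⟨u[p], List.getElem?_eq_getElem hp, (hlet p _ (List.getElem?_eq_getElem hp)).1 ?_⟩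
    have h3 : u[p]? = (mkd (u.map Prod.fst))[p]? := congrArg (fun l => l[p]?) h
    rw [List.getElem?_eq_getElem hp] at h3
    unfold mkd at h3
    rw [List.getElem?_map, List.getElem?_range (by simpa using hp), Option.map_some] at h3
    exact Option.some.inj h3

end Pool.Agent.BookIm
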