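import Pool.Agent.BookIm.Quant
import Pool.Agent.BookIm.SReach
import Pool.Agent.BookIm.SGame
import Pool.Agent.BookIm.SUP
import Pool.Agent.Book19.UInd
import Pool.Agent.Book19.UEx

/-!
# Savitch's theorem for padded words
-/

set_option autoImplicit false

namespace Pool.Agent.BookIm

open Pool.Agent.PT Pool.Agent.Book19 Relation

private theorem savitch_mkd_fst {S : Type} (w : List (Option (S × S))) :
    (mkd w).map Prod.fst = w := by
  unfold mkd
  rw [List.map_map]
  refine List.ext_getElem? fun p => ?_
  rw [List.getElem?_map]
  by_cases hp : p < w.length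
  · rw [List.getElem?_range hp, List.getElem?_eq_getElem hp]
    simp [List.getElem?_eq_getElem hp]
  · rw [List.getElem?_eq_none (by simpa using hp), List.getElem?_eq_none (by omega)]
    rfl

private theorem savitch_game {S : Type} [Fintype S] [Inhabited S] {U : Set (List (S × S))}
    (a b : List S) (hab : a.length = b.length) (w : List (Option (S × S)))
    (hw : a.length ≤ w.length) (h : w = pd w.length (a.zip b))
    (hK : Fintype.card S * a.length ≤ KN w.length a.length) :
    QW Prod.snd (mkd w) (fun u : List (SA S × SZ S) => SMat u U) ↔ ReflTransGen (EL U) a b := by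
  rw [qw_iff U a b hab w hw h]
  refine rk_iff (fun c d hcd => hcd.1.symm) ?_ rfl
  calc Fintype.card S ^ a.length ≤ (2 ^ Fintype.card S) ^ a.length :=
        Nat.pow_le_pow_left (Nat.lt_two_pow_self).le _
    _ = 2 ^ (Fintype.card S * a.length) := by rw [pow_mul]
    _ ≤ 2 ^ KN w.length a.length := Nat.pow_le_pow_right (by norm_num) hK

theorem savitch {S : Type} [Fintype S] [Inhabited S] {U : Set (List (S × S))}
    (hU : UP (fun x _ => x ∈ U)) : InDLBA _ (SavL U) := by
  classical
  have h1 : InDLBA _ {w : List (Option (S × S)) | ∃ u : List (S × S), u.length ≤ w.length ∧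
      w.map id = pd w.length u} := inDLBA_of_UP (up_isPad id)
  have h2 : InDLBA _ {w : List (Option (S × S)) | Fintype.card S * nS (w.map id) ≤
      (w.length - nS (w.map id)) / (nS (w.map id) + 1)} := by
    refine inDLBA_of_UP ?_
    exact UP.le ((UF.const _).mul (uf_nS id))
      (UF.div (UF.len.sub (uf_nS id)) ((uf_nS id).add (UF.const 1)))
  have h3 : InDLBA _ {w : List (Option (S × S)) | ∃ w' : List (Option (S × S) × Bool),
      w'.map Prod.fst = w ∧ w' ∈ {w' : List (Option (S × S) × Bool) |
        w' ∈ {w' : List (Option (S × S) × Bool) | w' = mkd (w'.map Prod.fst)} ∧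
        w' ∈ {w' | QW Prod.snd w' (fun u : List (SA S × SZ S) => u ∈ {u | SMat u U})}}} :=
    InDLBA.ex ((inDLBA_of_UP up_mkd).inter (InDLBA.quant Prod.snd (inDLBA_of_UP (up_SMat hU))))
  refine (h1.inter (h2.inter h3)).congr ?_
  intro w _
  simp only [List.map_id]
  constructor
  · rintro ⟨a, b, hab, hw, h, hK, hr⟩
    have hzl : (a.zip b).length = a.length := by rw [List.length_zip, hab, min_self]
    have hn : nS w = a.length := by
      have := nS_pd w.length (a.zip b) (by rw [hzl]; exact hw)
      rw [← h, hzl] at this
      exact this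
    refine ⟨⟨a.zip b, by rw [hzl]; exact hw, h⟩, ?_, ?_⟩
    · change Fintype.card S * nS w ≤ (w.length - nS w) / (nS w + 1)
      rw [hn]
      exact hK
    · refine ⟨mkd w, savitch_mkd_fst w, ?_, ?_⟩
      · change mkd w = mkd ((mkd w).map Prod.fst)
        rw [savitch_mkd_fst]
      · exact (savitch_game a b hab w hw h hK).2 hr
  · rintro ⟨⟨u, hul, hu⟩, hK, w', hw', hm, hq⟩
    have hn : nS w = u.length := by
      have := nS_pd w.length u hul
      rw [← hu] at this
      exact this
    have hz : u = (u.map Prod.fst).zip (u.map Prod.snd) := List.zip_of_prod rfl rfl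
    have hl : (u.map Prod.fst).length = u.length := List.length_map _
    refine ⟨u.map Prod.fst, u.map Prod.snd, by simp, by rw [hl]; exact hul, by rw [← hz]; exact hu,
      ?_, ?_⟩
    · change Fintype.card S * nS w ≤ (w.length - nS w) / (nS w + 1) at hK
      rw [hl, ← hn]
      exact hK
    · refine (savitch_game _ _ (by simp) w (by rw [hl]; exact hul) (by rw [← hz]; exact hu) ?_).1 ?_
      · change Fintype.card S * nS w ≤ (w.length - nS w) / (nS w + 1) at hK
        rw [hl, ← hn]
        exact hK
      · have hm' : w' = mkd w := by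
          have : w' = mkd (w'.map Prod.fst) := hm
          rw [hw'] at this
          exact this
        rw [← hm']
        exact hq

end Pool.Agent.BookIm
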