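import Pool.Agent.BookIm.Defs
import Pool.Agent.Book19.CoreLBA
import Pool.Agent.Book19.CodEx
import Pool.Agent.Book19.Trk

/-!
# The code of a machine
-/

set_option autoImplicit false

namespace Pool.Agent.BookIm

open Pool.Agent.PT Pool.Agent.Book19 Relation Filter

private theorem tr_trk_get {A : Type} (x : List A) (h : List Bool) (i : ℕ) :
    (trk x h)[i]? = (x[i]?).map (fun a => (a, h[i]?)) := by
  induction x generalizing h i with
  | nil => simp [trk]
  | cons a x ih =>
    cases h with
    | nil =>
      cases i with
      | zero => simp [trk]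
      | succ i => simpa [trk] using ih [] i
    | cons b h =>
      cases i with
      | zero => simp [trk]
      | succ i => simpa [trk] using ih h i

private theorem tr_countP (n k : ℕ) (hk : k ≤ n) :
    (List.range n).countP (fun i => decide (i < k)) = k := by
  induction n with
  | zero => simp at hk; simp [hk]
  | succ n ih =>
    rw [List.range_succ, List.countP_append]
    rcases Nat.lt_or_ge n k with h | h
    · have hkn : k = n + 1 := by omega
      subst hkn
      have h1 : (List.range n).countP (fun i => decide (i < n + 1)) = n := by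
        rw [List.countP_eq_length.2]
        · simp
        · intro a ha
          have := List.mem_range.1 ha
          simp; omega
      rw [h1]; simp
    · rw [ih h]; simp; omega

private theorem ixB_inj : Function.Injective ixB := fun _ _ h =>
  (Fintype.equivFin (Bool × Option Bool)).injective (Fin.ext h)

variable {M : LBA (Bool × Option Bool)}

/-- The coding with longer blocks. -/
private def stretch (C : Cod M ixB) (n : ℕ) (hn : C.k ≤ n) : Cod M ixB where
  k := n
  s := C.s
  q := C.q
  tb := C.tb
  s_inl := C.s_inl
  s_inj := C.s_inj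
  q_inj := C.q_inj
  s_lt := fun x => (C.s_lt x).trans_le hn
  q_lt := fun x => (C.q_lt x).trans_le hn
  tb_mem := C.tb_mem

open Classical in
/-- The code. -/
private noncomputable def tauC (C : Cod M ixB) (m : ℕ) : List Th :=
  (List.range m).map (fun i =>
    ((decide (i < C.k), decide (i = C.q M.start), decide (∃ x ∈ M.acc, C.q x = i)), C.tabL i))

private theorem tauC_length (C : Cod M ixB) (m : ℕ) : (tauC C m).length = m := by
  simp [tauC]

open Classical in
private theorem tauC_get (C : Cod M ixB) (m i : ℕ) (hi : i < m) : (tauC C m)[i]? =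
    some ((decide (i < C.k), decide (i = C.q M.start), decide (∃ x ∈ M.acc, C.q x = i)),
      C.tabL i) := by
  unfold tauC
  rw [List.getElem?_map, List.getElem?_range hi]
  rfl

private theorem tauC_get' (C : Cod M ixB) (m i : ℕ) (hi : m ≤ i) : (tauC C m)[i]? = none := by
  rw [List.getElem?_eq_none_iff, tauC_length]
  exact hi

private theorem kT_tauC (C : Cod M ixB) (m : ℕ) (hm : C.k ≤ m) : kT (tauC C m) = C.k := by
  unfold kT tauC
  rw [List.countP_map]
  exact tr_countP m C.k hm

private theorem tabF_eq (C : Cod M ixB) (m n : ℕ) (hk : 0 < C.k) (hkn : C.k ≤ n)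
    (htb : C.tb.length * C.k ≤ m) (p : ℕ) :
    tabF n C.k (fun p => (tauC C m)[p]?) p = (stretch C n hkn).tabL p := by
  classical
  have e0 : (stretch C n hkn).tabL p = (C.tb[p / n]?).map fun e =>
    { tq := decide (C.q e.1.1 = p % n)
      ts := decide (C.s e.1.2.1 = p % n)
      tq' := decide (C.q e.2.1 = p % n)
      ts' := decide (C.s e.2.2.1 = p % n)
      dir := e.2.2.2
      le := e.1.2.2.1
      re := e.1.2.2.2 } := rfl
  have e1 : ∀ i, ((tauC C m)[i]?).bind (fun t => t.2) = C.tabL i := by
    intro i
    rcases Nat.lt_or_ge i m with h | h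
    · rw [tauC_get C m i h]; rfl
    · rw [tauC_get' C m i h]
      unfold Cod.tabL
      rw [List.getElem?_eq_none ((Nat.le_div_iff_mul_le hk).2 (htb.trans h))]
      rfl
  unfold tabF
  simp only [e1]
  rw [e0]
  split_ifs with h
  · unfold Cod.tabL
    have h1 : (p / n * C.k + p % n) / C.k = p / n := by
      rw [mul_comm, Nat.mul_add_div hk, Nat.div_eq_of_lt h, add_zero]
    have h2 : (p / n * C.k + p % n) % C.k = p % n := by
      rw [mul_comm, Nat.mul_add_mod, Nat.mod_eq_of_lt h]
    rw [h1, h2]
  · unfold Cod.tabL
    have h1 : (p / n * C.k) / C.k = p / n := Nat.mul_div_cancel _ hk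
    rw [h1, Option.map_map]
    congr 1
    funext e
    have q1 := C.q_lt e.1.1
    have q2 := C.q_lt e.2.1
    have s1 := C.s_lt e.1.2.1
    have s2 := C.s_lt e.2.2.1
    have a1 : ¬ C.q e.1.1 = p % n := by omega
    have a2 : ¬ C.q e.2.1 = p % n := by omega
    have a3 : ¬ C.s e.1.2.1 = p % n := by omega
    have a4 : ¬ C.s e.2.2.1 = p % n := by omega
    simp [er, a1, a2, a3, a4]

private theorem cw_tauC (C : Cod M ixB) (m n : ℕ) (hk : 0 < C.k) (hkn : C.k ≤ n)
    (hkm : C.k ≤ m) (htb : C.tb.length * C.k ≤ m) (x h : List Bool) (hx : x.length = n) :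
    cw x (tauC C m) h =
      (stretch C n hkn).code M.acc ∅ (n * n) (M.init (trk x h)) := by
  classical
  unfold cw Cod.code
  rw [hx, kT_tauC C m hkm]
  refine List.map_congr_left fun p hp => ?_
  have hn : 0 < n := hk.trans_le hkn
  unfold cLf Cod.lett
  have hk' : (stretch C n hkn).k = n := rfl
  have hq' : (stretch C n hkn).q = C.q := rfl
  have hs' : (stretch C n hkn).s = C.s := rfl
  rw [hk', hq', hs', ← tabF_eq C m n hk hkn htb p]
  have e3 : (∃ t, (tauC C m)[p % n]? = some t ∧ t.1.2.2 = true) ↔
      ∃ x ∈ M.acc, C.q x = p % n := by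
    rcases Nat.lt_or_ge (p % n) m with h | h
    · rw [tauC_get C m _ h]
      constructor
      · rintro ⟨t, h1, h2⟩
        have h3 := Option.some.inj h1
        subst h3
        simpa using h2
      · intro h1
        exact ⟨_, rfl, by simpa using h1⟩
    · rw [tauC_get' C m _ h]
      constructor
      · rintro ⟨t, h1, h2⟩
        exact absurd h1 (by simp)
      · rintro ⟨y, _, h1⟩
        have := C.q_lt y
        omega
  have e4 : (∃ y ∈ (∅ : Set M.Q), C.q y = p % n) ↔ False := by
    simp
  have h0 : (M.init (trk x h)).2.1.reverse ++ (M.init (trk x h)).2.2 =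
      (trk x h).map Sum.inl := by
    simp [LBA.init]
  have e5 : (∃ a, x[p / n]? = some a ∧ ixB (a, h[p / n]?) = p % n) ↔
      ∃ γ, ((M.init (trk x h)).2.1.reverse ++ (M.init (trk x h)).2.2)[p / n]? = some γ ∧
        C.s γ = p % n := by
    rw [h0, List.getElem?_map, tr_trk_get, Option.map_map]
    rcases hxp : x[p / n]? with _ | a
    · constructor
      · rintro ⟨a, h1, _⟩
        exact absurd h1 (by simp)
      · rintro ⟨γ, h1, _⟩
        exact absurd h1 (by simp)
    · constructor
      · rintro ⟨b, h1, h2⟩
        have h3 := Option.some.inj h1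
        subst h3
        exact ⟨_, rfl, by rw [Function.comp_apply, C.s_inl]; exact h2⟩
      · rintro ⟨γ, h1, h2⟩
        have h3 := Option.some.inj h1
        subst h3
        refine ⟨a, rfl, ?_⟩
        rw [Function.comp_apply, C.s_inl] at h2
        exact h2
  have e6 : (p / n = 0 ∧ ∃ t, (tauC C m)[p % n]? = some t ∧ t.1.2.1 = true) ↔
      (p / n = (M.init (trk x h)).2.1.length ∧ C.q (M.init (trk x h)).1 = p % n) := by
    have h1 : (M.init (trk x h)).2.1.length = 0 := rfl
    have h2 : (M.init (trk x h)).1 = M.start := rfl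
    rw [h1, h2]
    refine and_congr_right fun _ => ?_
    rcases Nat.lt_or_ge (p % n) m with h | h
    · rw [tauC_get C m _ h]
      constructor
      · rintro ⟨t, h1, h2⟩
        have h3 := Option.some.inj h1
        subst h3
        have h4 : p % n = C.q M.start := by simpa using h2
        exact h4.symm
      · intro h1
        exact ⟨_, rfl, by simpa using h1.symm⟩
    · rw [tauC_get' C m _ h]
      constructor
      · rintro ⟨t, h1, h2⟩
        exact absurd h1 (by simp)
      · intro h1
        have := C.q_lt M.start
        omega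
  simp only [e3, e4, e5, e6, decide_false]

/-- Every nondeterministic linear bounded automaton has a code for all large lengths. -/
theorem exists_code (M : LBA (Bool × Option Bool)) : ∃ n₀ : ℕ, ∀ n, n₀ ≤ n →
    ∃ τ : List Th, τ.length = cl n ∧ ∀ (x h : List Bool), x.length = n →
      (Uv x τ h ↔ M.Accepts (trk x h)) := by
  obtain ⟨C, hC⟩ := exists_cod M ixB ixB_inj 1
  set B : ℕ := C.k + C.tb.length * C.k + 1 with hB
  refine ⟨2 ^ ((Fintype.card Th + 1) * B), fun n hn => ?_⟩
  have hn0 : n ≠ 0 := by
    have : 0 < 2 ^ ((Fintype.card Th + 1) * B) := by positivity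
    omega
  have h1 : (Fintype.card Th + 1) * B ≤ Nat.log 2 n := Nat.le_log_of_pow_le (by norm_num) hn
  have h2 : B ≤ cl n := by
    unfold cl
    rw [Nat.le_div_iff_mul_le (by positivity), mul_comm]
    exact h1
  have h3 : cl n ≤ n := by
    unfold cl
    exact (Nat.div_le_self _ _).trans (Nat.log_le_self 2 n)
  have hkm : C.k ≤ cl n := by omega
  have htb : C.tb.length * C.k ≤ cl n := by omega
  have hkn : C.k ≤ n := hkm.trans h3
  have hk : 0 < C.k := hC
  refine ⟨tauC C (cl n), tauC_length C _, fun x h hx => ?_⟩
  unfold Uv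
  rw [cw_tauC C (cl n) n hk hkn hkm htb x h hx]
  have hnn : n * n / (stretch C n hkn).k = n := Nat.mul_div_cancel _ (by omega)
  have hne : trk x h ≠ [] := by
    intro h0
    have := congrArg List.length h0
    rw [length_trk, hx] at this
    simp only [List.length_nil] at this
    omega
  have htl : C.tb.length ≤ n := by
    have : C.tb.length * 1 ≤ C.tb.length * C.k := Nat.mul_le_mul_left _ hk
    omega
  exact ((stretch C n hkn).accepts (n * n) ∅ (Nat.mul_le_mul_right n htl) (trk x h) hne
    (by rw [length_trk, hx, hnn])).symm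

end Pool.Agent.BookIm
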