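import Pool.Agent.BookIm.Savitch
import Pool.Agent.BookIm.VWord
import Pool.Agent.BookIm.VUP
import Pool.Agent.Book19.StepUP

/-!
# The accepted words with three tracks are in deterministic linear space
-/

set_option autoImplicit false

namespace Pool.Agent.BookIm

open Pool.Agent.PT Pool.Agent.Book19 Relation

private theorem vd_EL (a b : List CL) : EL StepLang a b ↔ UStep a b := by
  unfold EL StepLang
  constructor
  · rintro ⟨h1, h2⟩
    change UStep ((a.zip b).map Prod.fst) ((a.zip b).map Prod.snd) at h2
    rwa [List.map_fst_zip (by omega), List.map_snd_zip (by omega)] at h2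
  · intro h
    have h1 := h.length
    refine ⟨h1.symm, ?_⟩
    change UStep ((a.zip b).map Prod.fst) ((a.zip b).map Prod.snd)
    rwa [List.map_fst_zip (by omega), List.map_snd_zip (by omega)]

private theorem vd_EL' : EL StepLang = UStep := by
  funext a b
  exact propext (vd_EL a b)

private theorem vd_len {a b : List CL} (h : ReflTransGen UStep a b) : b.length = a.length := by
  induction h with
  | refl => rfl
  | tail _ h2 ih => rw [h2.length, ih]

/-- The letters with the track of the computation. -/
private abbrev VY : Type := Xi × Option (CL × CL)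

private noncomputable def vdN (u : List VY) : ℕ := u.countP (fun y => y.1.1.isSome)

private def vdC (u : List VY) (p : ℕ) : Prop :=
  ∃ z : CL × CL, (u[p]?).bind (fun y => y.2) = some z ∧ cLw (u.map Prod.fst) p = z.1

private theorem vd_N (u : List VY) :
    (u.map Prod.fst).countP (fun a : Xi => a.1.isSome) = vdN u := by
  unfold vdN
  rw [List.countP_map]
  rfl

private theorem up_vdC : UP (fun (u : List VY) e => vdC u (e 0)) := by
  refine (UP.fex (P := fun (z : CL × CL) (u : List VY) e =>
    (u[e 0]?).bind (fun y => y.2) = some z ∧ cLw (u.map Prod.fst) (e 0) = z.1) fun z => ?_).congr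
    fun u e => Iff.rfl
  exact (UP.getEq (fun y : VY => y.2) (some z) (UF.var 0)).and
    (UP.wmap (B := VY) (P := fun (w : List Xi) e => cLw w (e 0) = z.1) (up_cLw z.1) Prod.fst)

private theorem dl_vd : InDLBA _ {u : List VY | u ∈ {u : List VY | u.map Prod.fst ∈ WFL} ∧
    u ∈ {u : List VY | u ∈ {u : List VY | u.map Prod.snd ∈ SavL StepLang} ∧
      u ∈ {u : List VY | u ∈ {u : List VY | nS (u.map Prod.snd) = vdN u * vdN u ∧
        ∀ p, p < vdN u * vdN u → vdC u p} ∧
        u ∈ {u : List VY | u ∉ {u : List VY | ∀ y ∈ u, ¬ ∃ z : CL × CL, y.2 = some z ∧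
          z.2.st = true ∧ z.2.f1 = true}}}}} := by
  have hN : UF (fun (u : List VY) _ => vdN u) := UF.countP _
  refine (InDLBA.map Prod.fst (inDLBA_of_UP up_WFL)).inter
    ((InDLBA.map Prod.snd (savitch up_stepLang)).inter ((inDLBA_of_UP ?_).inter
      (dl_all (fun y : VY => ¬ ∃ z : CL × CL, y.2 = some z ∧
          z.2.st = true ∧ z.2.f1 = true)).compl))
  exact (UP.eq (uf_nS Prod.snd) (hN.mul hN)).and
    (UP.ball (b := fun (u : List VY) _ => vdN u * vdN u) (P := fun (u : List VY) _ p => vdC u p)
      (hN.mul hN) up_vdC)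

theorem dl_VL : InDLBA _ VL := by
  classical
  refine (InDLBA.ex (Γ := Xi) (T := Option (CL × CL)) dl_vd).congr ?_
  intro w _
  constructor
  · rintro ⟨x, τ, h, hs, rfl, c, hc, a, hac, ha⟩
    have hcw : (cw x τ h).length = x.length * x.length := by
      unfold cw; rw [List.length_map, List.length_range]
    have hcl : c.length = x.length * x.length := by rw [vd_len hc, hcw]
    have hzl : ((cw x τ h).zip c).length = x.length * x.length := by
      rw [List.length_zip, hcw, hcl, min_self]
    have hpl : x.length * x.length ≤ pl x.length := by unfold pl; omega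
    set s : List (Option (CL × CL)) := pd (pl x.length) ((cw x τ h).zip c) with hsdef
    have hsl : s.length = pl x.length := length_pd _ _
    have hnS : nS s = x.length * x.length := by
      rw [hsdef, nS_pd _ _ (by rw [hzl]; exact hpl), hzl]
    have hwl : (tw x τ h).length = pl x.length := length_tw x τ h
    have e1 : ((tw x τ h).zip s).map Prod.fst = tw x τ h :=
      List.map_fst_zip (by rw [hwl, hsl])
    have e2 : ((tw x τ h).zip s).map Prod.snd = s := List.map_snd_zip (by rw [hwl, hsl])
    have hN : vdN ((tw x τ h).zip s) = x.length := by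
      rw [← vd_N, e1]
      exact (cLw_tw hs).1
    refine ⟨(tw x τ h).zip s, e1, ?_, ?_, ⟨?_, ?_⟩, ?_⟩
    · change ((tw x τ h).zip s).map Prod.fst ∈ WFL
      rw [e1]
      exact ⟨x, τ, h, hs, rfl⟩
    · change ((tw x τ h).zip s).map Prod.snd ∈ SavL StepLang
      rw [e2]
      refine ⟨cw x τ h, c, by rw [hcw, hcl], by rw [hcw, hsl]; exact hpl, by rw [hsl], ?_, ?_⟩
      · rw [hcw, hsl]
        unfold KN pl
        rw [Nat.add_sub_cancel_left, Nat.mul_div_cancel _ (Nat.succ_pos _)]
      · rw [vd_EL']
        exact hc
    · rw [e2, hN, hnS]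
    · rw [hN]
      intro p hp
      have hp1 : ((tw x τ h).zip s)[p]?.bind (fun y => y.2) = (s[p]?).bind id := by
        conv_rhs => rw [← e2, List.getElem?_map]
        cases ((tw x τ h).zip s)[p]? <;> rfl
      have hp2 : s[p]? = some (((cw x τ h).zip c)[p]?) := by
        rw [hsdef, getElem?_pd, if_pos (by omega)]
      have hp3 : ((cw x τ h).zip c)[p]? = some (((cw x τ h).zip c)[p]'(by omega)) :=
        List.getElem?_eq_getElem (by omega)
      refine ⟨((cw x τ h).zip c)[p]'(by omega), ?_, ?_⟩
      · rw [hp1, hp2, hp3]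
        rfl
      · rw [e1, (cLw_tw hs).2 p]
        simp [cw]
    · intro hall
      obtain ⟨p, hp, rfl⟩ := List.getElem_of_mem hac
      have hq : (some (((cw x τ h).zip c)[p]'(by omega)) : Option (CL × CL)) ∈ s := by
        rw [List.mem_iff_getElem?]
        refine ⟨p, ?_⟩
        rw [hsdef, getElem?_pd, if_pos (by omega), List.getElem?_eq_getElem (by omega)]
      rw [← e2, List.mem_map] at hq
      obtain ⟨y, hy, hy2⟩ := hq
      refine hall y hy ⟨_, hy2, ?_⟩
      simpa using ha
  · rintro ⟨u, rfl, ⟨x, τ, h, hs, hw⟩, ⟨a, b, hab, hal, hpd, hK, hr⟩, ⟨hnS, hC⟩, hex⟩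
    refine ⟨x, τ, h, hs, hw, b, ?_, ?_⟩
    · have hN : vdN u = x.length := by
        rw [← vd_N, hw]
        exact (cLw_tw hs).1
      rw [hN] at hnS hC
      have hzl : (a.zip b).length = a.length := by rw [List.length_zip, hab, min_self]
      have hal2 : a.length = x.length * x.length := by
        rw [hpd, nS_pd _ _ (by rw [hzl]; exact hal), hzl] at hnS
        exact hnS
      have hca : cw x τ h = a := by
        refine List.ext_getElem (by unfold cw; rw [List.length_map, List.length_range, hal2]) ?_
        intro p h1 h2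
        obtain ⟨z, hz1, hz2⟩ := hC p (by omega)
        have hp1 : (u[p]?).bind (fun y => y.2) = ((u.map Prod.snd)[p]?).bind id := by
          rw [List.getElem?_map]
          cases u[p]? <;> rfl
        rw [hp1, hpd, getElem?_pd, if_pos (by omega),
          List.getElem?_eq_getElem (l := a.zip b) (by omega)] at hz1
        have hz3 : z = (a.zip b)[p]'(by omega) := by
          simpa using hz1.symm
        rw [hw, (cLw_tw hs).2 p, hz3] at hz2
        simp only [cw, List.getElem_map, List.getElem_range]
        rw [hz2]
        simp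
      rw [hca, ← vd_EL']
      exact hr
    · by_contra hcon
      push Not at hcon
      apply hex
      intro y hy
      rintro ⟨z, hz, hz1, hz2⟩
      have h3 : (some z : Option (CL × CL)) ∈ u.map Prod.snd := List.mem_map.2 ⟨y, hy, hz⟩
      rw [hpd] at h3
      unfold pd at h3
      rw [List.mem_map] at h3
      obtain ⟨p, -, hp⟩ := h3
      have h4 : z ∈ a.zip b := List.mem_of_getElem? hp
      have h5 : z.2 ∈ b := (List.of_mem_zip (a := z.1) (b := z.2) h4).2
      exact hcon z.2 h5 hz1 hz2

end Pool.Agent.BookIm
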