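import Pool.Agent.BookIm.Defs

/-!
# The words with three tracks
-/

set_option autoImplicit false

namespace Pool.Agent.BookIm

open Pool.Agent.PT Pool.Agent.Book19 Relation

/-- The word with the three tracks `x`, `τ`, `h`. -/
noncomputable def tw (x : List Bool) (τ : List Th) (h : List Bool) : List Xi :=
  (List.range (pl x.length)).map (fun p => (x[p]?, (τ[p]?, h[p]?)))

/-- The sizes allowed. -/
def Szs (n : ℕ) (τ : List Th) (h : List Bool) : Prop :=
  τ.length = cl n ∧ h.length ≤ n - Nat.log 2 n

/-- The words with three tracks which are accepted. -/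
def VL : Set (List Xi) := {w | ∃ x τ h, Szs x.length τ h ∧ w = tw x τ h ∧ Uv x τ h}

/-- The well-formed words with three tracks. -/
def WFL : Set (List Xi) := {w | ∃ x τ h, Szs x.length τ h ∧ w = tw x τ h}

/-- The letters of the initial configuration, read from a word with three tracks. -/
noncomputable def cLw (w : List Xi) (p : ℕ) : CL :=
  cLf (w.countP (fun a => a.1.isSome)) (w.countP (fun a => (a.2.1.map (fun t => t.1.1)).getD false))
    (fun p => (w[p]?).bind (fun a => a.1)) (fun p => (w[p]?).bind (fun a => a.2.1))
    (fun p => (w[p]?).bind (fun a => a.2.2)) p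

end Pool.Agent.BookIm
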